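import Pool.Agent.Q171.KV.Inn

/-!
The comparison of the two descriptions of the classes of matrices, and the properties of the
groups `KV_{n+1}(S[G])`: transfers, inner automorphisms, finitely generated subgroups.
-/

namespace Pool.Agent.Q171.KV

open Matrix Polynomial Pool.Agent.Y483

set_option linter.unusedSectionVars false

section Rel

variable {R R' : Type} [Ring R] [Ring R'] {J : TwoSidedIdeal R} {J' : TwoSidedIdeal R'}
  {κ l : Type} [Fintype κ] [DecidableEq κ] [Fintype l] [DecidableEq l]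

/-- The element of the group given by a matrix. -/
def RGL.toG (u : RGL J κ) : RG J κ := ⟨⟨u.val, u.inv, u.val_inv, u.inv_val⟩, u.mem⟩

/-- The matrix given by an element of the group. -/
def toL (u : RG J κ) : RGL J κ :=
  ⟨u.1.1, (u.1⁻¹).1, Units.mul_inv u.1, Units.inv_mul u.1, u.2⟩

theorem RGL.eq_of_val {u v : RGL J κ} (h : u.val = v.val) : u = v := by
  have h1 : u.inv = v.inv := by
    calc u.inv = u.inv * (v.val * v.inv) := by rw [v.val_inv, mul_one]
      _ = v.inv := by rw [← mul_assoc, ← h, u.inv_val, one_mul]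
  obtain ⟨a, b, _, _, _⟩ := u
  obtain ⟨a', b', _, _, _⟩ := v
  subst h h1
  rfl

theorem toG_toL (u : RGL J κ) : toL u.toG = u := RGL.eq_of_val rfl

theorem toG_mul (u v : RGL J κ) : (u.mul v).toG = u.toG * v.toG := RG.ext rfl

theorem toL_mul (u v : RG J κ) : toL (u * v) = (toL u).mul (toL v) := RGL.eq_of_val rfl

theorem toG_stab {f : κ ↪ l} {u : RGL J κ} {v : RGL J l} (h : RGL.IsStab f u v) :
    v.toG = pushf f u.toG := by
  apply RG.ext
  rw [pushf_val]
  exact eq_pushf f v.val u.val h.1 h.2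

theorem toL_stab (f : κ ↪ l) (u : RG J κ) : RGL.IsStab f (toL u) (toL (pushf f u)) := by
  constructor
  · intro i j
    change (pushf f u).1.1 (f i) (f j) = u.1.1 i j
    rw [pushf_val, Matrix.add_apply, emb_conj_apply, Matrix.sub_apply, Matrix.one_apply,
      Matrix.one_apply]
    by_cases hij : i = j
    · rw [if_pos (by rw [hij]), if_pos hij]
      abel
    · rw [if_neg (fun e => hij (f.injective e)), if_neg hij]
      abel
  · intro a b hab
    change (pushf f u).1.1 a b = _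
    rw [pushf_val, Matrix.add_apply, emb_conj_zero f _ a b hab, add_zero]

theorem toG_map (f : R →+* R') (hf : ∀ x ∈ J, f x ∈ J') (u : RGL J κ) :
    (RGL.map (J' := J') f hf u).toG = RG.map f hf u.toG := RG.ext rfl

theorem toL_map (f : R →+* R') (hf : ∀ x ∈ J, f x ∈ J') (u : RG J κ) :
    toL (RG.map (J' := J') f hf u) = RGL.map f hf (toL u) := RGL.eq_of_val rfl

theorem toG_one : (RGL.one : RGL J κ).toG = 1 := RG.ext rfl

theorem toL_one : toL (1 : RG J κ) = RGL.one := RGL.eq_of_val rfl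

end Rel

namespace PD

variable {B D : PD} (Z : Type) [CommRing Z]

theorem cl_mul (k : ℕ) (u v : RGL D.J (Fin k)) : Hom.cl Z (⟨k, u.mul v⟩ : D.Gen) =
    Hom.cl Z (⟨k, u⟩ : D.Gen) + Hom.cl Z (⟨k, v⟩ : D.Gen) := by
  have h : Finsupp.single (⟨k, u.mul v⟩ : D.Gen) (1 : Z) -
      (Finsupp.single (⟨k, u⟩ : D.Gen) 1 + Finsupp.single (⟨k, v⟩ : D.Gen) 1) ∈
      Submodule.span Z (D.rels Z) := by
    apply Submodule.subset_span
    left; left
    exact ⟨k, u, v, by abel⟩
  exact (Submodule.Quotient.eq _).mpr h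

theorem cl_stab (k m : ℕ) (f : Fin k ↪ Fin m) (u : RGL D.J (Fin k)) (v : RGL D.J (Fin m))
    (h : RGL.IsStab f u v) : Hom.cl Z (⟨m, v⟩ : D.Gen) = Hom.cl Z (⟨k, u⟩ : D.Gen) := by
  apply (Submodule.Quotient.eq _).mpr
  apply Submodule.subset_span
  left; right
  exact ⟨k, m, f, u, v, h, rfl⟩

theorem cl_end (k : ℕ) (h : RGL D.JQ (Fin k)) (h0 : RGL.map D.e0 D.J0 h = RGL.one) :
    Hom.cl Z (⟨k, RGL.map D.e1 D.J1 h⟩ : D.Gen) = 0 := by
  apply (Submodule.Quotient.mk_eq_zero _).mpr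
  apply Submodule.subset_span
  right
  exact ⟨k, h, h0, rfl⟩

/-- The comparison map. -/
noncomputable def toS (D : PD) : D.Kq Z →ₗ[Z] D.Ks Z :=
  Submodule.liftQ (Submodule.span Z (D.rels Z))
    (Finsupp.linearCombination Z (fun x : D.Gen => D.gen Z x.size x.mat.toG)) (by
    rw [Submodule.span_le]
    intro x hx
    rcases hx with (⟨k, u, v, rfl⟩ | ⟨k, m, f, u, v, hv, rfl⟩) | ⟨k, h, h0, rfl⟩
    · simp [toG_mul, gen_mul]
    · simp [toG_stab hv, gen_pushf]
    · have e : D.gen Z k (RGL.map D.e1 D.J1 h).toG = 0 := by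
        rw [toG_map]
        apply gen_E1
        change RG.map D.e0 D.J0 h.toG = 1
        rw [← toG_map, h0, toG_one]
      simp [e])

theorem toS_cl (x : D.Gen) : D.toS Z (Hom.cl Z x) = D.gen Z x.size x.mat.toG := by
  change Finsupp.linearCombination Z (fun x : D.Gen => D.gen Z x.size x.mat.toG)
    (Finsupp.single x 1) = _
  rw [Finsupp.linearCombination_single, one_smul]

/-- The comparison map in the other direction. -/
noncomputable def ofS (D : PD) : D.Ks Z →ₗ[Z] D.Kq Z :=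
  D.lift Z (fun k u => Hom.cl Z (⟨k, toL u⟩ : D.Gen))
    (fun k u v => by rw [toL_mul, cl_mul])
    (fun k m f u => cl_stab Z k m f _ _ (toL_stab f u))
    (fun k h h0 => by
      have e : toL (D.E1 h) = RGL.map D.e1 D.J1 (toL h) := toL_map _ _ _
      rw [e]
      apply cl_end
      rw [← toL_map]
      exact (congrArg toL h0).trans toL_one)

theorem ofS_gen (k : ℕ) (u : RG D.J (Fin k)) :
    D.ofS Z (D.gen Z k u) = Hom.cl Z (⟨k, toL u⟩ : D.Gen) := lift_gen _ _ _ _ _ _ _ _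

theorem ofS_toS (x : D.Kq Z) : D.ofS Z (D.toS Z x) = x := by
  have h : D.ofS Z ∘ₗ D.toS Z = LinearMap.id := by
    apply Hom.cl_ext
    rintro ⟨k, u⟩
    rw [LinearMap.comp_apply, toS_cl, ofS_gen]
    rw [toG_toL]
    rfl
  exact LinearMap.congr_fun h x

theorem toS_nat (f : Hom B D) (x : B.Kq Z) : D.toS Z (f.kq Z x) = f.ks Z (B.toS Z x) := by
  have h : D.toS Z ∘ₗ f.kq Z = f.ks Z ∘ₗ B.toS Z := by
    apply Hom.cl_ext
    rintro ⟨k, u⟩
    rw [LinearMap.comp_apply, LinearMap.comp_apply, toS_cl, Hom.kq_cl, toS_cl, Hom.ks_gen, cls_fin]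
    congr 1
  exact LinearMap.congr_fun h x

theorem ofS_nat (f : Hom B D) (x : B.Ks Z) : D.ofS Z (f.ks Z x) = f.kq Z (B.ofS Z x) := by
  have h : D.ofS Z ∘ₗ f.ks Z = f.kq Z ∘ₗ B.ofS Z := by
    apply hom_ext
    intro k u
    rw [LinearMap.comp_apply, LinearMap.comp_apply, ofS_gen, Hom.ks_gen, cls_fin, ofS_gen,
      Hom.kq_cl]
    congr 1
  exact LinearMap.congr_fun h x

end PD

section KV

variable (Z : Type) [CommRing Z] (S : Type) [Ring S] (n : ℕ)

/-- The comparison map of the groups `KV_{n+1}`. -/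
noncomputable abbrev kvTo (A : Type) [Ring A] : KVz Z n A →ₗ[Z] KVs Z n A :=
  (PD.loops A n).toS Z

/-- The comparison map of the groups `KV_{n+1}`, in the other direction. -/
noncomputable abbrev kvOf (A : Type) [Ring A] : KVs Z n A →ₗ[Z] KVz Z n A :=
  (PD.loops A n).ofS Z

theorem kvTo_map {A B : Type} [Ring A] [Ring B] (f : A →+* B) (x : KVz Z n A) :
    kvTo Z n B (KVz.map Z n f x) = KVs.map Z n f (kvTo Z n A x) :=
  PD.toS_nat Z (PD.Hom.loops f n) x

theorem kvOf_map {A B : Type} [Ring A] [Ring B] (f : A →+* B) (x : KVs Z n A) :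
    kvOf Z n B (KVs.map Z n f x) = KVz.map Z n f (kvOf Z n A x) :=
  PD.ofS_nat Z (PD.Hom.loops f n) x

theorem kvOf_kvTo {A : Type} [Ring A] (x : KVz Z n A) : kvOf Z n A (kvTo Z n A x) = x :=
  PD.ofS_toS Z x

/-- The transfer along a pair of cocycles for `G ↦ KV_{n+1}(S[G])`. -/
theorem kv_transfer {G A K : Type} [Group G] [Group K] (p : FinPair G A K) :
    ∃ Φ : KVz Z n (MonoidAlgebra S G) →ₗ[Z] KVz Z n (MonoidAlgebra S K),
      ∀ (G₀ : Type) [Group G₀] (j : G₀ →* G) (Y : Finset A) (lc ld : A → (G₀ →* K)),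
        (∀ a ∈ Y, ∀ g, p.σ (j g) a = a ∧ lc a g = p.c (j g) a ∧ ld a g = p.d (j g) a) →
        (∀ a ∉ Y, ∀ g, p.c (j g) a = p.d (j g) a) → ∀ x : KVz Z n (MonoidAlgebra S G₀),
          Φ (KVz.map Z n (MonoidAlgebra.mapDomainRingHom S j) x) =
            ∑ a ∈ Y, (KVz.map Z n (MonoidAlgebra.mapDomainRingHom S (lc a)) x -
              KVz.map Z n (MonoidAlgebra.mapDomainRingHom S (ld a)) x) := by
  obtain ⟨Φ, hΦ⟩ := kvs_transfer Z S n p
  refine ⟨kvOf Z n _ ∘ₗ Φ ∘ₗ kvTo Z n _, ?_⟩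
  intro G₀ _ j Y lc ld h1 h2 x
  rw [LinearMap.comp_apply, LinearMap.comp_apply, kvTo_map, hΦ G₀ j Y lc ld h1 h2, map_sum]
  apply Finset.sum_congr rfl
  intro a _
  rw [map_sub, kvOf_map, kvOf_map, kvOf_kvTo]

/-- Inner automorphisms act trivially. -/
theorem kv_conj {G : Type} [Group G] (g : G) :
    KVz.map Z n (MonoidAlgebra.mapDomainRingHom S (MulAut.conj g).toMonoidHom) =
      LinearMap.id := by
  apply LinearMap.ext
  intro x
  rw [← kvOf_kvTo Z n x, ← kvOf_map, kvs_conj]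
  rfl

/-- Each class is fixed by the endomorphisms of the group which fix certain finitely many
elements. -/
theorem kv_fix {G : Type} [Group G] (x : KVz Z n (MonoidAlgebra S G)) :
    ∃ X₀ : Finset G, ∀ f : G →* G, (∀ g ∈ X₀, f g = g) →
      KVz.map Z n (MonoidAlgebra.mapDomainRingHom S f) x = x := by
  obtain ⟨X₀, h⟩ := kvs_fix Z S n (kvTo Z n _ x)
  refine ⟨X₀, fun f hf => ?_⟩
  rw [← kvOf_kvTo Z n (KVz.map Z n _ x), kvTo_map, h f hf, kvOf_kvTo]

end KV

end Pool.Agent.Q171.KV
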