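import Pool.Agent.Q171.KV.Op

/-!
The classes of invertible matrices of endomorphisms which differ from the identity in finitely many
entries: multiplicativity, invariance under conjugation by arbitrary invertible matrices,
stabilization and homotopies; matrices which are diagonal with respect to the basis `A`.
-/

namespace Pool.Agent.Q171.KV

open Matrix MulOpposite

set_option linter.unusedSectionVars false

namespace PD

variable {B : PD} {A : Type} [DecidableEq A] {κ l : Type} [Fintype κ] [DecidableEq κ] [Fintype l]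
  [DecidableEq l] (Z : Type) [CommRing Z]

/-- The class of a matrix of endomorphisms which differs from the identity in finitely many
entries. -/
noncomputable def tcls (W : FP B.J A κ) : B.Ks Z :=
  cls Z (res W.1 W.2.1.choose W.2.1.choose_spec W.2.2)

theorem cls_res_mono (W : (Matrix κ κ (EE B.P A))ˣ) {F F' : Finset A} (h : F ⊆ F')
    (hF : Supp F (W.1 - 1)) (hF' : Supp F' (W.1 - 1)) (hJ : InE B.J (W.1 - 1)) :
    cls Z (res W F' hF' hJ) = cls Z (res W F hF hJ) := by
  rw [res_mono W h hF hF' hJ, cls_pushf]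

theorem tcls_eq (W : FP B.J A κ) (F : Finset A) (hF : Supp F (W.1.1 - 1)) :
    tcls Z W = cls Z (res W.1 F hF W.2.2) := by
  unfold tcls
  have h1 := W.2.1.choose_spec
  rw [← cls_res_mono Z W.1 (Finset.subset_union_left (s₂ := F)) h1
      (h1.mono (Finset.subset_union_left (s₂ := F))) W.2.2,
    ← cls_res_mono Z W.1 (Finset.subset_union_right (s₁ := W.2.1.choose)) hF
      (hF.mono (Finset.subset_union_right (s₁ := W.2.1.choose))) W.2.2]

theorem tcls_mul (U W : FP B.J A κ) : tcls Z (U * W) = tcls Z U + tcls Z W := by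
  obtain ⟨F, hF⟩ := U.2.1
  obtain ⟨F', hF'⟩ := W.2.1
  obtain ⟨F'', hF''⟩ := (U * W).2.1
  have h1 := hF.mono (F' := F ∪ F' ∪ F'') (by
    intro x hx
    simp only [Finset.mem_union]
    tauto)
  have h2 := hF'.mono (F' := F ∪ F' ∪ F'') (by
    intro x hx
    simp only [Finset.mem_union]
    tauto)
  have h3 := hF''.mono (F' := F ∪ F' ∪ F'') (by
    intro x hx
    simp only [Finset.mem_union]
    tauto)
  rw [tcls_eq Z _ _ h1, tcls_eq Z _ _ h2, tcls_eq Z _ _ h3, ← cls_mul]
  congr 1
  exact res_mul _ _ _ _ _ _ _ _ _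

theorem tcls_one : tcls Z (1 : FP B.J A κ) = 0 := by
  have h := tcls_mul Z (1 : FP B.J A κ) 1
  rw [one_mul] at h
  exact left_eq_add.mp h

theorem tcls_inv (W : FP B.J A κ) : tcls Z W⁻¹ = -tcls Z W := by
  rw [eq_neg_iff_add_eq_zero, ← tcls_mul, inv_mul_cancel, tcls_one]

/-- The class does not change under conjugation by an arbitrary invertible matrix of
endomorphisms. -/
theorem tcls_conj (Y : (Matrix κ κ (EE B.P A))ˣ) (W W' : FP B.J A κ)
    (h : W'.1 = Y⁻¹ * W.1 * Y) : tcls Z W' = tcls Z W := by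
  obtain ⟨F, hF⟩ := W.2.1
  obtain ⟨F', hF'⟩ := W'.2.1
  let C : Finset A := Finset.univ.biUnion fun p : κ × κ =>
    F.biUnion fun b => (ev ((Y⁻¹).1 p.1 p.2) (Finsupp.single b 1)).support
  have hC : ∀ i j, ∀ b ∈ F, ∀ c ∉ F' ∪ C, ent ((Y⁻¹).1 i j) c b = 0 := by
    intro i j b hb c hc
    by_contra hne
    apply hc
    apply Finset.mem_union_right
    apply Finset.mem_biUnion.mpr
    refine ⟨(i, j), Finset.mem_univ _, ?_⟩
    apply Finset.mem_biUnion.mpr
    exact ⟨b, hb, Finsupp.mem_support_iff.mpr hne⟩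
  have hF3 := hF'.mono (Finset.subset_union_left (s₂ := C))
  have hWV : blk F (F' ∪ C) Y.1 * blk (F' ∪ C) F (Y⁻¹).1 = 1 := by
    rw [← blk_mul, Units.mul_inv, blk_one]
    intro i k j a _ c hc b hb
    exact Or.inr (hC k j b hb c hc)
  rw [tcls_eq Z W F hF, tcls_eq Z W' _ hF3, ← cls_push Z _ _ hWV]
  congr 1
  apply RG.ext
  rw [push_val]
  change blk (F' ∪ C) (F' ∪ C) W'.1.1 = 1 + blk (F' ∪ C) F (Y⁻¹).1 * (blk F F W.1.1 - 1) *
    blk F (F' ∪ C) Y.1
  have e : W'.1.1 = 1 + (Y⁻¹).1 * ((W.1.1 - 1) * Y.1) := by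
    rw [h]
    change (Y⁻¹).1 * W.1.1 * Y.1 = _
    rw [sub_mul, mul_sub, one_mul, Units.inv_mul, ← mul_assoc]
    abel
  rw [e, blk_add, blk_one, ← blk_one F, ← blk_sub, Matrix.mul_assoc, ← blk_mul, ← blk_mul]
  · intro i k j a _ c hc b _
    right
    rw [Matrix.mul_apply, ent_sum]
    apply Finset.sum_eq_zero
    intro m _
    exact ent_mul_zero_left _ _ _ _ fun c' => hF k m c c' (Or.inl hc)
  · intro i k j a _ c hc b _
    left
    exact hF i k a c (Or.inr hc)

/-- The injection `(i, a) ↦ (f i, a)`. -/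
def prodEmb (f : κ ↪ l) (F : Finset A) : κ × F ↪ l × F where
  toFun p := (f p.1, p.2)
  inj' := by
    rintro ⟨i, a⟩ ⟨j, b⟩ h
    exact Prod.ext (f.injective (Prod.mk.inj h).1) (Prod.mk.inj h).2

/-- The class does not change under stabilization. -/
theorem tcls_pushf (f : κ ↪ l) (W : FP B.J A κ) (W' : FP B.J A l)
    (h : W'.1.1 = 1 + emb (EE B.P A) f * (W.1.1 - 1) * embT (EE B.P A) f) :
    tcls Z W' = tcls Z W := by
  obtain ⟨F, hF⟩ := W.2.1
  have hF' : Supp F (W'.1.1 - 1) := by
    intro a b x y hxy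
    rw [h, add_sub_cancel_left]
    by_cases hab : (∀ i, a ≠ f i) ∨ (∀ j, b ≠ f j)
    · rw [emb_conj_zero f _ a b hab]
      rfl
    · push Not at hab
      obtain ⟨⟨i, rfl⟩, ⟨j, rfl⟩⟩ := hab
      rw [emb_conj_apply]
      exact hF i j x y hxy
  rw [tcls_eq Z W F hF, tcls_eq Z W' F hF', ← cls_pushf Z (prodEmb f F)]
  congr 1
  apply RG.ext
  rw [pushf_val]
  apply eq_pushf
  · rintro ⟨i, x⟩ ⟨j, y⟩
    change ent (W'.1.1 (f i) (f j)) x y = ent (W.1.1 i j) x y
    rw [h, Matrix.add_apply, emb_conj_apply, Matrix.sub_apply, Matrix.one_apply, Matrix.one_apply]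
    congr 1
    by_cases hij : i = j
    · rw [if_pos (by rw [hij]), if_pos hij]
      abel
    · rw [if_neg (fun e => hij (f.injective e)), if_neg hij]
      abel
  · rintro ⟨a, x⟩ ⟨b, y⟩ hab
    have hab' : (∀ i, a ≠ f i) ∨ (∀ j, b ≠ f j) := by
      rcases hab with h1 | h1
      · left
        intro i e
        exact h1 (i, x) (Prod.ext e rfl)
      · right
        intro i e
        exact h1 (i, y) (Prod.ext e rfl)
    change ent (W'.1.1 a b) x y = _
    rw [h, Matrix.add_apply, emb_conj_zero f _ a b hab', add_zero]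
    exact congrFun (congrFun (blk_one F) (a, x)) (b, y)

section Relate

variable {S S' : Type} [Ring S] [Ring S']

/-- The entries of `X'` are the images of the entries of `X` under the homomorphism `φ`. -/
def Rl (φ : S →+* S') (X : Matrix κ l (EE S A)) (X' : Matrix κ l (EE S' A)) : Prop :=
  ∀ i j a b, φ (ent (X i j) a b) = ent (X' i j) a b

theorem Rl.mul {φ : S →+* S'} {μ : Type} {X : Matrix κ l (EE S A)} {X' : Matrix κ l (EE S' A)}
    {Y : Matrix l μ (EE S A)} {Y' : Matrix l μ (EE S' A)} (h : Rl φ X X') (h' : Rl φ Y Y') :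
    Rl φ (X * Y) (X' * Y') := by
  intro i j a b
  rw [Matrix.mul_apply, Matrix.mul_apply, ent_sum, ent_sum, map_sum]
  apply Finset.sum_congr rfl
  intro k _
  rw [ent_mul_supp, ent_mul _ _ _ _ (ev (Y k j) (Finsupp.single b 1)).support, map_sum]
  · apply Finset.sum_congr rfl
    intro c _
    rw [map_mul, h, h']
  · intro c hc
    right
    have h0 : ent (Y k j) c b = 0 := Finsupp.notMem_support_iff.mp hc
    rw [← h', h0, map_zero]

theorem Rl.sub_one {φ : S →+* S'} {X : Matrix κ κ (EE S A)} {X' : Matrix κ κ (EE S' A)}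
    (h : Rl φ X X') : Rl φ (X - 1) (X' - 1) := by
  intro i j a b
  rw [Matrix.sub_apply, Matrix.sub_apply, ent_sub, ent_sub, map_sub, h]
  congr 1
  rw [Matrix.one_apply, Matrix.one_apply]
  split_ifs
  · rw [ent_one, ent_one, Matrix.one_apply, Matrix.one_apply]
    split_ifs
    · exact map_one φ
    · exact map_zero φ
  · exact map_zero φ

theorem Rl.supp {φ : S →+* S'} {X : Matrix κ l (EE S A)} {X' : Matrix κ l (EE S' A)}
    (h : Rl φ X X') {F : Finset A} (hF : Supp F X) : Supp F X' := by
  intro i j a b hab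
  rw [← h, hF i j a b hab, map_zero]

end Relate

/-- The ends of a path have the same class. -/
theorem tcls_path (H : FP B.JQ A κ) (W0 W1 : FP B.J A κ) (h0 : Rl B.e0 H.1.1 W0.1.1)
    (h1 : Rl B.e1 H.1.1 W1.1.1) : tcls Z W1 = tcls Z W0 := by
  obtain ⟨F, hF⟩ := H.2.1
  rw [tcls_eq Z W0 F (h0.sub_one.supp hF), tcls_eq Z W1 F (h1.sub_one.supp hF)]
  have e0 : B.E0 (res H.1 F hF H.2.2) = res W0.1 F (h0.sub_one.supp hF) W0.2.2 := by
    apply RG.ext
    ext p q
    exact h0 _ _ _ _
  have e1 : B.E1 (res H.1 F hF H.2.2) = res W1.1 F (h1.sub_one.supp hF) W1.2.2 := by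
    apply RG.ext
    ext p q
    exact h1 _ _ _ _
  rw [← e0, ← e1, cls_homotopy]

/-- The block diagonal matrix of a family of matrices. -/
noncomputable def bd (Y : Finset A) : (A → RG B.J κ) →* RG B.J (κ × Y) where
  toFun v := ⟨⟨blockDiagonal fun a : Y => (v a).1.1, blockDiagonal fun a : Y => ((v a)⁻¹).1.1, by
      rw [← blockDiagonal_mul, ← blockDiagonal_one]
      congr 1
      ext1 a
      exact Units.mul_inv _, by
      rw [← blockDiagonal_mul, ← blockDiagonal_one]
      congr 1
      ext1 a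
      exact Units.inv_mul _⟩, by
    change InJ B.J (blockDiagonal (fun a : Y => (v a).1.1) - 1)
    rw [← blockDiagonal_one, ← blockDiagonal_sub]
    rintro ⟨i, a⟩ ⟨j, b⟩
    rw [blockDiagonal_apply]
    split_ifs
    · exact (v a).2 i j
    · exact zero_mem _⟩
  map_one' := by
    apply RG.ext
    exact blockDiagonal_one
  map_mul' v w := by
    apply RG.ext
    exact blockDiagonal_mul (fun a : Y => (v a).1.1) (fun a : Y => (w a).1.1)

theorem bd_val (Y : Finset A) (v : A → RG B.J κ) :
    (bd Y v).1.1 = blockDiagonal fun a : Y => (v a).1.1 := rfl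

/-- The injection `i ↦ (i, a)`. -/
def colEmb (κ : Type) {Y : Finset A} (a : Y) : κ ↪ κ × Y where
  toFun i := (i, a)
  inj' := fun _ _ h => (Prod.mk.inj h).1

theorem bd_single (Y : Finset A) (a : Y) (u : RG B.J κ) :
    bd Y (fun b => if b = a then u else 1) = pushf (colEmb κ a) u := by
  apply RG.ext
  rw [pushf_val, bd_val]
  apply eq_pushf
  · intro i j
    change blockDiagonal _ (i, a) (j, a) = _
    rw [blockDiagonal_apply, if_pos rfl, if_pos rfl]
  · rintro ⟨i, b⟩ ⟨j, c⟩ hab
    rw [blockDiagonal_apply, Matrix.one_apply]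
    by_cases hbc : b = c
    · have hne : b ≠ a := by
        rintro rfl
        subst hbc
        rcases hab with h | h
        · exact h i rfl
        · exact h j rfl
      rw [if_pos hbc, if_neg fun e => hne (Subtype.ext e)]
      change (1 : Matrix κ κ B.P) i j = _
      rw [Matrix.one_apply]
      by_cases hij : i = j
      · rw [if_pos hij, if_pos (by rw [hij, hbc])]
      · rw [if_neg hij, if_neg fun e => hij (Prod.mk.inj e).1]
    · rw [if_neg hbc, if_neg fun e => hbc (Prod.mk.inj e).2]

theorem cls_bd (Y : Finset A) (v : A → RG B.J κ) : cls Z (bd Y v) = ∑ a ∈ Y, cls Z (v a) := by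
  have key : ∀ s : Finset A, s ⊆ Y →
      cls Z (bd Y fun b => if b ∈ s then v b else 1) = ∑ a ∈ s, cls Z (v a) := by
    intro s
    induction s using Finset.induction_on with
    | empty =>
      intro _
      rw [Finset.sum_empty]
      have h : (fun b : A => if b ∈ (∅ : Finset A) then v b else 1) = 1 := by
        ext1 b
        rw [if_neg (Finset.notMem_empty b)]
        rfl
      rw [h, map_one, cls_one]
    | insert a s ha ih =>
      intro hs
      have ha' : a ∈ Y := hs (Finset.mem_insert_self a s)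
      have h : (fun b : A => if b ∈ insert a s then v b else 1) =
          (fun b => if b = a then v a else 1) * fun b => if b ∈ s then v b else 1 := by
        ext1 b
        rw [Pi.mul_apply]
        by_cases hb : b = a
        · subst hb
          rw [if_pos (Finset.mem_insert_self _ _), if_pos rfl, if_neg ha, mul_one]
        · rw [if_neg hb, one_mul]
          by_cases hb' : b ∈ s
          · rw [if_pos hb', if_pos (Finset.mem_insert_of_mem hb')]
          · rw [if_neg hb', if_neg (fun e => (Finset.mem_insert.mp e).elim hb hb')]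
      rw [h, map_mul, cls_mul, ih fun x hx => hs (Finset.mem_insert_of_mem hx),
        Finset.sum_insert ha]
      congr 1
      rw [bd_single Y ⟨a, ha'⟩ (v a), cls_pushf]
  have h := key Y (Finset.Subset.refl Y)
  rw [← h]
  congr 1
  apply RG.ext
  rw [bd_val, bd_val]
  congr 1
  ext1 a
  rw [if_pos a.2]

end PD

end Pool.Agent.Q171.KV
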