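import Mathlib

/-!
Karoubi–Villamayor K-theory of rings and of group rings: invertible matrices which are congruent to
the identity modulo an ideal, up to stabilization and polynomial homotopies.
-/

namespace Pool.Agent.Q171.KV

open Matrix Polynomial CategoryTheory

set_option linter.unusedSectionVars false

/-! ### Matrices congruent to the identity modulo an ideal -/

section Rel

variable {R R' : Type} [Ring R] [Ring R'] {J : TwoSidedIdeal R} {J' : TwoSidedIdeal R'}
  {κ l μ : Type}

/-- The entries of the matrix `M` lie in the two-sided ideal `J`. -/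
def InJ (J : TwoSidedIdeal R) (M : Matrix κ l R) : Prop := ∀ i j, M i j ∈ J

theorem InJ.zero : InJ J (0 : Matrix κ l R) := fun _ _ => zero_mem J

theorem InJ.add {M N : Matrix κ l R} (hM : InJ J M) (hN : InJ J N) : InJ J (M + N) :=
  fun i j => J.add_mem (hM i j) (hN i j)

theorem InJ.neg {M : Matrix κ l R} (hM : InJ J M) : InJ J (-M) :=
  fun i j => J.neg_mem (hM i j)

theorem InJ.sub {M N : Matrix κ l R} (hM : InJ J M) (hN : InJ J N) : InJ J (M - N) :=
  fun i j => J.sub_mem (hM i j) (hN i j)

theorem InJ.sum {ι : Type} (s : Finset ι) (f : ι → R) (h : ∀ i ∈ s, f i ∈ J) :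
    ∑ i ∈ s, f i ∈ J := by
  classical
  induction s using Finset.induction_on with
  | empty => rw [Finset.sum_empty]; exact zero_mem J
  | insert a s ha ih =>
    rw [Finset.sum_insert ha]
    exact J.add_mem (h a (Finset.mem_insert_self a s))
      (ih fun i hi => h i (Finset.mem_insert_of_mem hi))

theorem InJ.mul_left [Fintype l] (A : Matrix κ l R) {M : Matrix l μ R} (hM : InJ J M) :
    InJ J (A * M) := by
  intro i j
  rw [Matrix.mul_apply]
  exact InJ.sum _ _ fun k _ => J.mul_mem_left _ _ (hM k j)

theorem InJ.mul_right [Fintype l] {M : Matrix κ l R} (hM : InJ J M) (A : Matrix l μ R) :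
    InJ J (M * A) := by
  intro i j
  rw [Matrix.mul_apply]
  exact InJ.sum _ _ fun k _ => J.mul_mem_right _ _ (hM i k)

/-- The homomorphism `f` maps the ideal `J` to the ideal `J'`. -/
@[reducible] def Resp (f : R →+* R') (J : TwoSidedIdeal R) (J' : TwoSidedIdeal R') : Prop :=
  ∀ x ∈ J, f x ∈ J'

/-- The homomorphism `e` is a left inverse of `i`. -/
@[reducible] def Sec (e : R' →+* R) (i : R →+* R') : Prop := ∀ p, e (i p) = p

/-- The element `t` commutes with all elements. -/
@[reducible] def Cent (t : R) : Prop := ∀ q, t * q = q * t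

/-- The image of `t` is `0`. -/
@[reducible] def To0 (e : R →+* R') (t : R) : Prop := e t = 0

/-- The image of `t` is `1`. -/
@[reducible] def To1 (e : R →+* R') (t : R) : Prop := e t = 1

variable (J) (κ) [Fintype κ] [DecidableEq κ] [Fintype l] [DecidableEq l]

/-- The invertible `κ × κ`-matrices over `R` which are congruent to the identity modulo the
ideal `J`. -/
structure RGL where
  /-- The matrix. -/
  val : Matrix κ κ R
  /-- The inverse matrix. -/
  inv : Matrix κ κ R
  val_inv : val * inv = 1
  inv_val : inv * val = 1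
  mem : InJ J (val - 1)

variable {J κ}

namespace RGL

theorem mul_mem (M N : Matrix κ κ R) (hM : InJ J (M - 1)) (hN : InJ J (N - 1)) :
    InJ J (M * N - 1) := by
  have h : M * N - 1 = M * (N - 1) + (M - 1) := by noncomm_ring
  rw [h]
  exact (InJ.mul_left _ hN).add hM

theorem inv_mem (M N : Matrix κ κ R) (h : N * M = 1) (hM : InJ J (M - 1)) : InJ J (N - 1) := by
  have e : N - 1 = -(N * (M - 1)) := by
    rw [mul_sub, h]
    noncomm_ring
  rw [e]
  exact (InJ.mul_left _ hM).neg

theorem one_mem : InJ J ((1 : Matrix κ κ R) - 1) := by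
  rw [sub_self]
  exact InJ.zero

theorem mul_aux (A B C D : Matrix κ κ R) (h : A * D = 1) (h' : B * C = 1) :
    A * B * (C * D) = 1 := by
  rw [mul_assoc, ← mul_assoc B, h', one_mul, h]

/-- The product. -/
def mul (u v : RGL J κ) : RGL J κ :=
  ⟨u.val * v.val, v.inv * u.inv, mul_aux _ _ _ _ u.val_inv v.val_inv,
    mul_aux _ _ _ _ v.inv_val u.inv_val, mul_mem _ _ u.mem v.mem⟩

/-- The identity matrix. -/
def one : RGL J κ := ⟨1, 1, mul_one 1, mul_one 1, one_mem⟩

theorem map_aux (f : R →+* R') (A B : Matrix κ κ R) (h : A * B = 1) :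
    A.map f * B.map f = 1 := by
  rw [← Matrix.map_mul, h]
  exact Matrix.map_one f (map_zero f) (map_one f)

theorem map_mem (f : R →+* R') (hf : Resp f J J') (M : Matrix κ κ R)
    (hM : InJ J (M - 1)) : InJ J' (M.map f - 1) := by
  have e : M.map f - 1 = (M - 1).map f := by
    rw [← Matrix.map_one f (map_zero f) (map_one f)]
    ext i j
    exact (map_sub f _ _).symm
  rw [e]
  exact fun i j => hf _ (hM i j)

/-- The map of matrices induced by a homomorphism of rings. -/
def map (f : R →+* R') (hf : Resp f J J') (u : RGL J κ) : RGL J' κ :=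
  ⟨u.val.map f, u.inv.map f, map_aux f _ _ u.val_inv, map_aux f _ _ u.inv_val,
    map_mem f hf _ u.mem⟩

/-- The matrix `v` is the stabilization of `u` along the injection `f`: its entry at `(f i, f j)`
is the entry of `u` at `(i, j)`, and its other entries are those of the identity. -/
def IsStab (f : κ ↪ l) (u : RGL J κ) (v : RGL J l) : Prop :=
  (∀ i j, v.val (f i) (f j) = u.val i j) ∧
    ∀ a b, ((∀ i, a ≠ f i) ∨ ∀ j, b ≠ f j) → v.val a b = (1 : Matrix l l R) a b

end RGL

end Rel

/-! ### The group -/

/-- A ring `P` with a two-sided ideal `J`, and a ring `Q` with a two-sided ideal `JQ` and an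
element `t` which commutes with all elements of `Q`, with homomorphisms `ι : P → Q` and
`e₀, e₁ : Q → P` which respect the ideals, such that `e₀ ι = e₁ ι = 1` and `e₀(t) = 0`,
`e₁(t) = 1`. The example is the polynomial ring `Q = P[t]`, with its evaluations at `0` and `1`. -/
structure PD where
  /-- The ring. -/
  P : Type
  /-- The ring of paths. -/
  Q : Type
  [rP : Ring P]
  [rQ : Ring Q]
  /-- The constant paths. -/
  ι : P →+* Q
  /-- The start of a path. -/
  e0 : Q →+* P
  /-- The end of a path. -/
  e1 : Q →+* P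
  /-- The variable. -/
  t : Q
  tc : Cent t
  e0ι : Sec e0 ι
  e1ι : Sec e1 ι
  e0t : To0 e0 t
  e1t : To1 e1 t
  /-- The ideal. -/
  J : TwoSidedIdeal P
  /-- The ideal of paths. -/
  JQ : TwoSidedIdeal Q
  Jι : Resp ι J JQ
  J0 : Resp e0 JQ J
  J1 : Resp e1 JQ J

attribute [instance] PD.rP PD.rQ

namespace PD

variable (D : PD)

/-- The invertible matrices of all sizes, congruent to the identity modulo the ideal. -/
structure Gen where
  /-- The size of the matrix. -/
  size : ℕ
  /-- The matrix. -/
  mat : RGL D.J (Fin size)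

/-- The relations: `[u v] = [u] + [v]`; the matrix `u` and its stabilizations along injections have
the same class; the end of a path of matrices which starts at the identity has class zero. -/
def rels (Z : Type) [CommRing Z] : Set (D.Gen →₀ Z) :=
  {x | ∃ (k : ℕ) (u v : RGL D.J (Fin k)), x = Finsupp.single ⟨k, u.mul v⟩ 1 -
      Finsupp.single ⟨k, u⟩ 1 - Finsupp.single ⟨k, v⟩ 1} ∪
  {x | ∃ (k m : ℕ) (f : Fin k ↪ Fin m) (u : RGL D.J (Fin k)) (v : RGL D.J (Fin m)),
      RGL.IsStab f u v ∧ x = Finsupp.single ⟨m, v⟩ 1 - Finsupp.single ⟨k, u⟩ 1} ∪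
  {x | ∃ (k : ℕ) (h : RGL D.JQ (Fin k)), RGL.map D.e0 D.J0 h = RGL.one ∧
      x = Finsupp.single ⟨k, RGL.map D.e1 D.J1 h⟩ 1}

variable (Z : Type) [CommRing Z]

/-- The `Z`-module generated by the classes of the matrices of all sizes, with the relations
`rels`. -/
def Kq : Type := (D.Gen →₀ Z) ⧸ Submodule.span Z (D.rels Z)

noncomputable instance : AddCommGroup (D.Kq Z) :=
  Submodule.Quotient.addCommGroup (Submodule.span Z (D.rels Z))

noncomputable instance : Module Z (D.Kq Z) :=
  Submodule.Quotient.module (Submodule.span Z (D.rels Z))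

end PD

/-- The square of homomorphisms commutes. -/
@[reducible] def Sq {R S R' S' : Type} [Ring R] [Ring S] [Ring R'] [Ring S'] (e' : S' →+* R')
    (g : S →+* S') (f : R →+* R') (e : S →+* R) : Prop := ∀ q, e' (g q) = f (e q)

namespace PD

variable (Z : Type) [CommRing Z]

/-- Homomorphisms of the data. -/
structure Hom (B D : PD) where
  /-- The homomorphism of the rings. -/
  fP : B.P →+* D.P
  /-- The homomorphism of the rings of paths. -/
  fQ : B.Q →+* D.Q
  h0 : Sq D.e0 fQ fP B.e0
  h1 : Sq D.e1 fQ fP B.e1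
  hJ : Resp fP B.J D.J
  hJQ : Resp fQ B.JQ D.JQ

namespace Hom

variable {B D : PD}

/-- The map of the generators. -/
def gen (f : Hom B D) (x : B.Gen) : D.Gen := ⟨x.size, RGL.map f.fP f.hJ x.mat⟩

theorem map_rels (f : Hom B D) : Submodule.span Z (B.rels Z) ≤
    (Submodule.span Z (D.rels Z)).comap (Finsupp.lmapDomain Z Z f.gen) := by
  rw [Submodule.span_le]
  intro x hx
  apply Submodule.subset_span
  rcases hx with (⟨k, u, v, rfl⟩ | ⟨k, m, g, u, v, hv, rfl⟩) | ⟨k, h, h0, rfl⟩
  · left; left
    refine ⟨k, RGL.map f.fP f.hJ u, RGL.map f.fP f.hJ v, ?_⟩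
    rw [map_sub, map_sub, Finsupp.lmapDomain_apply, Finsupp.lmapDomain_apply,
      Finsupp.lmapDomain_apply, Finsupp.mapDomain_single, Finsupp.mapDomain_single,
      Finsupp.mapDomain_single]
    have e : f.gen ⟨k, u.mul v⟩ =
        ⟨k, (RGL.map (J' := D.J) f.fP f.hJ u).mul (RGL.map f.fP f.hJ v)⟩ := by
      unfold gen RGL.map RGL.mul
      congr 1
      congr 1
      · exact Matrix.map_mul
      · exact Matrix.map_mul
    rw [e]
    rfl
  · left; right
    refine ⟨k, m, g, RGL.map f.fP f.hJ u, RGL.map f.fP f.hJ v, ⟨?_, ?_⟩, ?_⟩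
    · intro i j
      exact congrArg f.fP (hv.1 i j)
    · intro a b hab
      change f.fP (v.val a b) = _
      rw [hv.2 a b hab, Matrix.one_apply, Matrix.one_apply]
      split_ifs
      · exact map_one _
      · exact map_zero _
    · rw [map_sub, Finsupp.lmapDomain_apply, Finsupp.lmapDomain_apply, Finsupp.mapDomain_single,
        Finsupp.mapDomain_single]
      rfl
  · right
    refine ⟨k, RGL.map f.fQ f.hJQ h, ?_, ?_⟩
    · have e : RGL.map D.e0 D.J0 (RGL.map (J' := D.JQ) f.fQ f.hJQ h) =
          RGL.map f.fP f.hJ (RGL.map B.e0 B.J0 h) := by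
        unfold RGL.map
        congr 1
        · ext i j
          exact f.h0 _
        · ext i j
          exact f.h0 _
      rw [e, h0]
      unfold RGL.map RGL.one
      congr 1
      · exact Matrix.map_one _ (map_zero f.fP) (map_one f.fP)
      · exact Matrix.map_one _ (map_zero f.fP) (map_one f.fP)
    · have e : RGL.map D.e1 D.J1 (RGL.map (J' := D.JQ) f.fQ f.hJQ h) =
          RGL.map f.fP f.hJ (RGL.map B.e1 B.J1 h) := by
        unfold RGL.map
        congr 1
        · ext i j
          exact f.h1 _
        · ext i j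
          exact f.h1 _
      rw [Finsupp.lmapDomain_apply, Finsupp.mapDomain_single, e]
      rfl

/-- The linear map of the spaces of classes. -/
noncomputable def kq (f : Hom B D) : B.Kq Z →ₗ[Z] D.Kq Z :=
  Submodule.mapQ (Submodule.span Z (B.rels Z)) (Submodule.span Z (D.rels Z))
    (Finsupp.lmapDomain Z Z f.gen) (f.map_rels Z)

end Hom

end PD

end Pool.Agent.Q171.KV
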