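import Pool.Agent.Q171.KV.Lem

/-!
The functors `G ↦ KV_{n+1}(S[G])`.
-/

namespace Pool.Agent.Q171.KV

open CategoryTheory

/-- The object `Z ⊗ KV_{n+1}(A)` of the category of `Z`-modules. -/
noncomputable def kvO (Z : Type) [CommRing Z] (n : ℕ) (A : RingCat.{0}) : ModuleCat.{0} Z :=
  ModuleCat.of Z (KVz Z n A)

/-- The map of these objects induced by a homomorphism of rings. -/
noncomputable def kvM (Z : Type) [CommRing Z] (n : ℕ) {A B : RingCat.{0}} (f : A ⟶ B) :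
    kvO Z n A ⟶ kvO Z n B := ModuleCat.ofHom (KVz.map Z n f.hom)

theorem kvM_id (Z : Type) [CommRing Z] (n : ℕ) (A : RingCat.{0}) :
    kvM Z n (𝟙 A) = 𝟙 (kvO Z n A) := congrArg ModuleCat.ofHom (KVz.map_id Z n A)

theorem kvM_comp (Z : Type) [CommRing Z] (n : ℕ) {A B C : RingCat.{0}} (f : A ⟶ B) (g : B ⟶ C) :
    kvM Z n (f ≫ g) = kvM Z n f ≫ kvM Z n g :=
  congrArg ModuleCat.ofHom (KVz.map_comp Z n g.hom f.hom)

/-- The functor `A ↦ Z ⊗ KV_{n+1}(A)` on the category of rings. -/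
noncomputable def kvR (Z : Type) [CommRing Z] (n : ℕ) : RingCat.{0} ⥤ ModuleCat.{0} Z where
  obj A := kvO Z n A
  map f := kvM Z n f
  map_id A := kvM_id Z n A
  map_comp f g := kvM_comp Z n f g

/-- The functor `G ↦ S[G]` from groups to rings. -/
noncomputable def grR (S : Type) [Ring S] : GrpCat.{0} ⥤ RingCat.{0} where
  obj G := RingCat.of (MonoidAlgebra S G)
  map f := RingCat.ofHom (MonoidAlgebra.mapDomainRingHom S f.hom)
  map_id _ := congrArg RingCat.ofHom MonoidAlgebra.mapDomainRingHom_id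
  map_comp f g := congrArg RingCat.ofHom (MonoidAlgebra.mapDomainRingHom_comp g.hom f.hom)

/-- The functor `G ↦ ℚ ⊗ KV_{n+1}(S[G])`. -/
noncomputable def kvQ (S : Type) [Ring S] (n : ℕ) : GrpCat.{0} ⥤ ModuleCat.{0} ℚ :=
  grR S ⋙ kvR ℚ n

/-- The functor `G ↦ KV_{n+1}(S[G])`, with values in the abelian groups. -/
noncomputable def kvI (S : Type) [Ring S] (n : ℕ) : GrpCat.{0} ⥤ AddCommGrpCat.{0} :=
  grR S ⋙ kvR ℤ n ⋙ forget₂ (ModuleCat.{0} ℤ) AddCommGrpCat.{0}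

end Pool.Agent.Q171.KV
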