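import Pool.Agent.Q171.KV.Br
import Pool.Agent.Q171.KV.KVf
import Pool.Agent.Q183.SN.Thm
import Pool.Agent.Y483.PI.Main
import Pool.Agent.Y483.PW.Def

/-!
The functors `G ↦ KV_{n+1}(S[G])`, rationally and integrally, have transfers along pairs of
cocycles.
-/

namespace Pool.Agent.Q171.KV

open CategoryTheory Pool.Agent.Y483 Pool.Agent.Y483.PW Pool.Agent.Y483.PI Pool.Agent.Y477.IW
  Pool.Agent.Y75.MQ

theorem hasPT_kv (S : Type) [Ring S] (n : ℕ) : HasPT (kvQ S n) := by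
  intro G A K _ _ p
  exact kv_transfer ℚ S n p

/-- Transfers along pairs give transfers along cocycles of finite support. -/
theorem hasTransfers_of_hasPT {E : GrpCat.{0} ⥤ ModuleCat.{0} ℚ} (hE : HasPT E) :
    Pool.Agent.Y110.KW.HasTransfers E := by
  intro G A K _ _ _ κ
  obtain ⟨Φ, hΦ⟩ := hE G A K
    { σ := MulAction.toPermHom G A
      c := κ.c
      d := fun _ _ => 1
      mul_c := κ.mul
      mul_d := fun _ _ _ => (mul_one 1).symm
      fin := κ.fin }
  refine ⟨Φ, ?_⟩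
  intro G₀ _ j hj Y hY x
  exact hΦ G₀ j Y (fun a => κ.label j hj a) (fun _ => 1)
    (fun a _ g => ⟨hj g a, rfl, rfl⟩) (fun a ha g => hY a ha g) x

theorem hasPTI_kv (S : Type) [Ring S] (n : ℕ) : HasPTI (kvI S n) := by
  intro G A K _ _ p
  obtain ⟨Φ, hΦ⟩ := kv_transfer ℤ S n p
  refine ⟨KVz ℤ n (MonoidAlgebra S K), inferInstance, Φ.toAddMonoidHom, AddMonoidHom.id _,
    fun _ _ h => h, ?_⟩
  intro G₀ _ j Y lc ld h1 h2 x
  exact hΦ G₀ j Y lc ld h1 h2 x

theorem innerTrivial_kv (S : Type) [Ring S] (n : ℕ) : InnerTrivial (kvI S n) := by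
  intro G g
  apply AddCommGrpCat.hom_ext
  apply AddMonoidHom.ext
  intro x
  exact LinearMap.congr_fun (kv_conj ℤ S n g) x

theorem contG_kv (S : Type) [Ring S] (n : ℕ) : Pool.Agent.Q183.SN.ContG (kvI S n) := by
  intro G _ x
  exact kv_fix ℤ S n x

end Pool.Agent.Q171.KV
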