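import Pool.Agent.Q171.KV.Mor
import Pool.Agent.Y483.Mono

/-!
Group rings: the functor `G ↦ Ks (D[G])`.
-/

namespace Pool.Agent.Q171.KV

open Matrix CategoryTheory

set_option linter.unusedSectionVars false

section GroupRing

variable {R R' : Type} [Ring R] [Ring R'] (J : TwoSidedIdeal R) {J' : TwoSidedIdeal R'}
  (G : Type) [Group G] {H : Type} [Group H]

/-- The ideal of the elements of the group ring whose coefficients lie in `J`. -/
noncomputable def grpJ : TwoSidedIdeal (MonoidAlgebra R G) :=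
  TwoSidedIdeal.mk' {x | ∀ g, x.coeff g ∈ J}
    (fun g => by rw [MonoidAlgebra.coeff_zero]; exact zero_mem J)
    (fun hx hy g => by rw [MonoidAlgebra.coeff_add]; exact J.add_mem (hx g) (hy g))
    (fun hx g => J.neg_mem (hx g))
    (fun {x y} hy g => by
      rw [MonoidAlgebra.coeff_mul_apply_left]
      exact InJ.sum _ _ fun h _ => J.mul_mem_left _ _ (hy _))
    (fun {x y} hx g => by
      rw [MonoidAlgebra.coeff_mul_apply_right]
      exact InJ.sum _ _ fun h _ => J.mul_mem_right _ _ (hx _))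

variable {J G}

theorem mem_grpJ {x : MonoidAlgebra R G} : x ∈ grpJ J G ↔ ∀ g, x.coeff g ∈ J :=
  TwoSidedIdeal.mem_mk' _ _ _ _ _ _ _

theorem grpJ_map (f : R →+* R') (hf : ∀ x ∈ J, f x ∈ J') (x : MonoidAlgebra R G)
    (hx : x ∈ grpJ J G) : MonoidAlgebra.mapRingHom G f x ∈ grpJ J' G := by
  rw [mem_grpJ] at hx ⊢
  intro g
  rw [MonoidAlgebra.coeff_mapRingHom]
  exact hf _ (hx g)

theorem single_mem_grpJ (g : G) (r : R) (hr : r ∈ J) :
    MonoidAlgebra.single g r ∈ grpJ J G := by
  classical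
  rw [mem_grpJ]
  intro h
  rw [MonoidAlgebra.coeff_single, Finsupp.single_apply]
  split_ifs
  · exact hr
  · exact zero_mem J

theorem grpJ_induction {motive : MonoidAlgebra R G → Prop} (x : MonoidAlgebra R G)
    (hx : x ∈ grpJ J G) (h0 : motive 0)
    (hadd : ∀ x y : MonoidAlgebra R G, motive x → motive y → motive (x + y))
    (hs : ∀ g, ∀ r ∈ J, motive (MonoidAlgebra.single g r)) : motive x := by
  rw [mem_grpJ] at hx
  have h : x = ∑ g ∈ x.coeff.support, MonoidAlgebra.single g (x.coeff g) := by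
    conv_lhs => rw [← MonoidAlgebra.sum_coeff_single x]
    rfl
  rw [h]
  apply Finset.sum_induction _ motive hadd h0
  intro g _
  exact hs g _ (hx g)

theorem grpJ_domain (f : G →* H) (x : MonoidAlgebra R G) (hx : x ∈ grpJ J G) :
    MonoidAlgebra.mapDomainRingHom R f x ∈ grpJ J H := by
  refine grpJ_induction (motive := fun x => MonoidAlgebra.mapDomainRingHom R f x ∈ grpJ J H)
    x hx ?_ ?_ ?_
  · rw [map_zero]
    exact zero_mem _
  · intro x y hx hy
    rw [map_add]
    exact (grpJ J H).add_mem hx hy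
  · intro g r hr
    rw [MonoidAlgebra.mapDomainRingHom_apply, MonoidAlgebra.mapDomain_single]
    exact single_mem_grpJ _ _ hr

end GroupRing

namespace PD

/-- The group ring: the data `D[G]`. -/
@[reducible] noncomputable def grp (D : PD) (G : Type) [Group G] : PD where
  P := MonoidAlgebra D.P G
  Q := MonoidAlgebra D.Q G
  ι := MonoidAlgebra.mapRingHom G D.ι
  e0 := MonoidAlgebra.mapRingHom G D.e0
  e1 := MonoidAlgebra.mapRingHom G D.e1
  t := MonoidAlgebra.single 1 D.t
  tc q := by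
    ext g
    rw [MonoidAlgebra.coeff_single_one_mul, MonoidAlgebra.coeff_mul_single_one, D.tc]
  e0ι p := by
    ext g
    rw [MonoidAlgebra.coeff_mapRingHom, MonoidAlgebra.coeff_mapRingHom, D.e0ι]
  e1ι p := by
    ext g
    rw [MonoidAlgebra.coeff_mapRingHom, MonoidAlgebra.coeff_mapRingHom, D.e1ι]
  e0t := by
    change MonoidAlgebra.mapRingHom G D.e0 (MonoidAlgebra.single 1 D.t) = 0
    rw [MonoidAlgebra.mapRingHom_single, D.e0t, MonoidAlgebra.single_zero]
  e1t := by
    change MonoidAlgebra.mapRingHom G D.e1 (MonoidAlgebra.single 1 D.t) = 1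
    rw [MonoidAlgebra.mapRingHom_single, D.e1t]
    rfl
  J := grpJ D.J G
  JQ := grpJ D.JQ G
  Jι := grpJ_map D.ι D.Jι
  J0 := grpJ_map D.e0 D.J0
  J1 := grpJ_map D.e1 D.J1

variable {D : PD} {G H L : Type} [Group G] [Group H] [Group L] {κ : Type} [Fintype κ]
  [DecidableEq κ] (Z : Type) [CommRing Z]

/-- The map of matrices over group rings induced by a homomorphism of groups. -/
noncomputable def gm (f : G →* H) : RG (D.grp G).J κ →* RG (D.grp H).J κ :=
  RG.map (MonoidAlgebra.mapDomainRingHom D.P f) (grpJ_domain f)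

/-- The same map, for the paths. -/
noncomputable def gmQ (f : G →* H) : RG (D.grp G).JQ κ →* RG (D.grp H).JQ κ :=
  RG.map (MonoidAlgebra.mapDomainRingHom D.Q f) (grpJ_domain f)

theorem gm_pushf (f : G →* H) {l : Type} [Fintype l] [DecidableEq l] (j : κ ↪ l)
    (u : RG (D.grp G).J κ) : gm f (pushf j u) = pushf j (gm f u) :=
  (pushf_map _ _ _ _).symm

theorem E0_gmQ (f : G →* H) (h : RG (D.grp G).JQ κ) :
    (D.grp H).E0 (gmQ f h) = gm f ((D.grp G).E0 h) := by
  apply RG.ext
  ext1 i j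
  exact RingHom.congr_fun (MonoidAlgebra.mapRingHom_comp_mapDomainRingHom D.e0 f) _

theorem E1_gmQ (f : G →* H) (h : RG (D.grp G).JQ κ) :
    (D.grp H).E1 (gmQ f h) = gm f ((D.grp G).E1 h) := by
  apply RG.ext
  ext1 i j
  exact RingHom.congr_fun (MonoidAlgebra.mapRingHom_comp_mapDomainRingHom D.e1 f) _

theorem gm_id (u : RG (D.grp G).J κ) : gm (MonoidHom.id G) u = u := by
  apply RG.ext
  ext1 i j
  change MonoidAlgebra.mapDomainRingHom D.P (MonoidHom.id G) _ = _
  rw [MonoidAlgebra.mapDomainRingHom_id]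
  rfl

theorem gm_comp (f : H →* L) (g : G →* H) (u : RG (D.grp G).J κ) :
    gm (f.comp g) u = gm f (gm g u) := by
  apply RG.ext
  ext1 i j
  change MonoidAlgebra.mapDomainRingHom D.P (f.comp g) _ = _
  rw [MonoidAlgebra.mapDomainRingHom_comp]
  rfl

/-- The linear map induced by a homomorphism of groups. -/
noncomputable def kmap (D : PD) (f : G →* H) : (D.grp G).Ks Z →ₗ[Z] (D.grp H).Ks Z :=
  (D.grp G).lift Z (fun k u => cls Z (gm f u))
    (fun k u v => by rw [map_mul, cls_mul])
    (fun k m j u => by rw [gm_pushf, cls_pushf])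
    (fun k h h0 => by
      rw [← E1_gmQ]
      apply cls_E1
      rw [E0_gmQ, h0, map_one])

theorem kmap_gen (f : G →* H) (k : ℕ) (u : RG (D.grp G).J (Fin k)) :
    D.kmap Z f ((D.grp G).gen Z k u) = cls Z (gm f u) := lift_gen _ _ _ _ _ _ _ _

theorem kmap_cls (f : G →* H) (u : RG (D.grp G).J κ) :
    D.kmap Z f (cls Z u) = cls Z (gm f u) := by
  rw [cls, kmap_gen, gm_pushf, cls_pushf]

/-- The functor `G ↦ Ks (D[G])`. -/
noncomputable def kF (D : PD) : GrpCat.{0} ⥤ ModuleCat.{0} Z where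
  obj G := ModuleCat.of Z ((D.grp G).Ks Z)
  map f := ModuleCat.ofHom (D.kmap Z f.hom)
  map_id G := by
    congr 1
    apply hom_ext
    intro k u
    rw [kmap_gen]
    change cls Z (gm (MonoidHom.id _) u) = _
    rw [gm_id, cls_fin]
    rfl
  map_comp f g := by
    rw [← ModuleCat.ofHom_comp]
    congr 1
    apply hom_ext
    intro k u
    rw [kmap_gen]
    change cls Z (gm (g.hom.comp f.hom) u) = _
    rw [gm_comp, LinearMap.comp_apply, kmap_gen, kmap_cls]

end PD

end Pool.Agent.Q171.KV
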