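import Pool.Agent.Q171.KV.Swap

/-!
Inner automorphisms act trivially on `KV_{n+1}(S[G])`, and each class of `KV_{n+1}(S[G])` comes from
finitely many elements of `G`.
-/

namespace Pool.Agent.Q171.KV

open Matrix Polynomial

set_option linter.unusedSectionVars false

namespace PD

/-- An endomorphism which is the conjugation by a unit on the ring acts trivially on the classes. -/
theorem Hom.ks_conj (Z : Type) [CommRing Z] {D : PD} (f : Hom D D) (w : D.Pˣ)
    (h : ∀ p, f.fP p = w * p * (w⁻¹ : D.Pˣ)) : f.ks Z = LinearMap.id := by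
  apply hom_ext
  intro k u
  rw [Hom.ks_gen]
  let U : (Matrix (Fin k) (Fin k) D.P)ˣ := Units.map (Matrix.scalar (Fin k)).toMonoidHom w
  have e : f.gl u = conjJ U u := by
    apply RG.ext
    ext1 i j
    change f.fP (u.1.1 i j) = (Matrix.scalar (Fin k) (w : D.P) * u.1.1 *
      Matrix.scalar (Fin k) ((w⁻¹ : D.Pˣ) : D.P)) i j
    rw [h, Matrix.scalar_apply, Matrix.scalar_apply, Matrix.mul_diagonal, Matrix.diagonal_mul]
  rw [e, cls_conj]
  exact cls_fin Z k u

theorem Hom.loops_conj {A : Type} [Ring A] (f : A →+* A) (w : Aˣ)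
    (h : ∀ p, f p = w * p * (w⁻¹ : Aˣ)) (n : ℕ) :
    ∃ v : (PD.loops A n).Pˣ, ∀ p, (Hom.loops f n).fP p = v * p * (v⁻¹ : (PD.loops A n).Pˣ) := by
  induction n with
  | zero => exact ⟨w, h⟩
  | succ n ih =>
    obtain ⟨v, hv⟩ := ih
    refine ⟨Units.map (C : (PD.loops A n).P →+* (PD.loops A n).P[X]).toMonoidHom v, ?_⟩
    have key : ∀ p : (PD.loops A n).P[X], mapRingHom (Hom.loops f n).fP p =
        C (v : (PD.loops A n).P) * p * C ((v⁻¹ : (PD.loops A n).Pˣ) : (PD.loops A n).P) := by
      intro p
      ext1 m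
      rw [coe_mapRingHom, coeff_map, hv, coeff_mul_C, coeff_C_mul]
    exact key

end PD

theorem mapDomain_conj (S : Type) [Ring S] {G : Type} [Group G] (g : G) (x : MonoidAlgebra S G) :
    MonoidAlgebra.mapDomainRingHom S (MulAut.conj g).toMonoidHom x =
      MonoidAlgebra.single g 1 * x * MonoidAlgebra.single g⁻¹ 1 := by
  induction x using MonoidAlgebra.induction_linear with
  | zero => rw [map_zero, mul_zero, zero_mul]
  | add x y hx hy => rw [map_add, hx, hy, mul_add, add_mul]
  | single h r =>
    rw [MonoidAlgebra.mapDomainRingHom_apply, MonoidAlgebra.mapDomain_single,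
      MonoidAlgebra.single_mul_single, MonoidAlgebra.single_mul_single, one_mul, mul_one]
    rfl

/-- The unit of the group ring given by an element of the group. -/
noncomputable def gUnit (S : Type) [Ring S] {G : Type} [Group G] (g : G) : (MonoidAlgebra S G)ˣ where
  val := MonoidAlgebra.single g 1
  inv := MonoidAlgebra.single g⁻¹ 1
  val_inv := by rw [MonoidAlgebra.single_mul_single, mul_inv_cancel, one_mul]; rfl
  inv_val := by rw [MonoidAlgebra.single_mul_single, inv_mul_cancel, one_mul]; rfl

/-- Inner automorphisms act trivially. -/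
theorem kvs_conj (Z : Type) [CommRing Z] (S : Type) [Ring S] (n : ℕ) {G : Type} [Group G] (g : G) :
    KVs.map Z n (MonoidAlgebra.mapDomainRingHom S (MulAut.conj g).toMonoidHom) =
      LinearMap.id := by
  obtain ⟨v, hv⟩ := PD.Hom.loops_conj
    (MonoidAlgebra.mapDomainRingHom S (MulAut.conj g).toMonoidHom) (gUnit S g)
    (fun x => mapDomain_conj S g x) n
  exact PD.Hom.ks_conj Z _ v hv

theorem domain_fix (S : Type) [Ring S] {G : Type} [Group G] (x : MonoidAlgebra S G) :
    ∃ X₀ : Finset G, ∀ f : G →* G, (∀ g ∈ X₀, f g = g) →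
      MonoidAlgebra.mapDomainRingHom S f x = x := by
  classical
  induction x using MonoidAlgebra.induction_linear with
  | zero => exact ⟨∅, fun f _ => map_zero _⟩
  | add x y hx hy =>
    obtain ⟨X, hX⟩ := hx
    obtain ⟨Y, hY⟩ := hy
    refine ⟨X ∪ Y, fun f hf => ?_⟩
    rw [map_add, hX f (fun g hg => hf g (Finset.mem_union_left _ hg)),
      hY f (fun g hg => hf g (Finset.mem_union_right _ hg))]
  | single h r =>
    refine ⟨{h}, fun f hf => ?_⟩
    rw [MonoidAlgebra.mapDomainRingHom_apply, MonoidAlgebra.mapDomain_single,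
      hf h (Finset.mem_singleton_self h)]

theorem loops_fix (S : Type) [Ring S] {G : Type} [Group G] (n : ℕ)
    (x : (PD.loops (MonoidAlgebra S G) n).P) :
    ∃ X₀ : Finset G, ∀ f : G →* G, (∀ g ∈ X₀, f g = g) →
      (PD.Hom.loops (MonoidAlgebra.mapDomainRingHom S f) n).fP x = x := by
  classical
  induction n with
  | zero => exact domain_fix S x
  | succ n ih =>
    change (PD.loops (MonoidAlgebra S G) n).P[X] at x
    choose F hF using ih
    refine ⟨x.support.biUnion fun m => F (x.coeff m), fun f hf => ?_⟩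
    change mapRingHom (PD.Hom.loops (MonoidAlgebra.mapDomainRingHom S f) n).fP x = x
    ext1 m
    rw [coe_mapRingHom, coeff_map]
    by_cases hm : m ∈ x.support
    · exact hF (x.coeff m) f fun g hg => hf g (Finset.mem_biUnion.mpr ⟨m, hm, hg⟩)
    · rw [notMem_support_iff.mp hm, map_zero]

/-- Each class is fixed by the endomorphisms of the group which fix certain finitely many
elements. -/
theorem kvs_fix (Z : Type) [CommRing Z] (S : Type) [Ring S] (n : ℕ) {G : Type} [Group G]
    (x : KVs Z n (MonoidAlgebra S G)) :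
    ∃ X₀ : Finset G, ∀ f : G →* G, (∀ g ∈ X₀, f g = g) →
      KVs.map Z n (MonoidAlgebra.mapDomainRingHom S f) x = x := by
  classical
  obtain ⟨y, rfl⟩ := Submodule.Quotient.mk_surjective _ x
  induction y using Finsupp.induction_linear with
  | zero => exact ⟨∅, fun f _ => map_zero _⟩
  | add y z hy hz =>
    obtain ⟨X, hX⟩ := hy
    obtain ⟨Y, hY⟩ := hz
    refine ⟨X ∪ Y, fun f hf => ?_⟩
    rw [Submodule.Quotient.mk_add, map_add,
      hX f (fun g hg => hf g (Finset.mem_union_left _ hg)),
      hY f (fun g hg => hf g (Finset.mem_union_right _ hg))]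
  | single a z =>
    obtain ⟨k, u⟩ := a
    choose F hF using fun p : Fin k × Fin k => loops_fix S n (u.1.1 p.1 p.2)
    refine ⟨Finset.univ.biUnion F, fun f hf => ?_⟩
    have e : (Submodule.Quotient.mk (Finsupp.single (⟨k, u⟩ : (PD.loops _ n).Gn) z) :
        (PD.loops (MonoidAlgebra S G) n).Ks Z) = z • PD.gen (PD.loops _ n) Z k u := by
      change _ = Submodule.Quotient.mk (z • _)
      rw [Finsupp.smul_single, smul_eq_mul, mul_one]
    rw [e, map_smul]
    congr 1
    change (PD.Hom.loops (MonoidAlgebra.mapDomainRingHom S f) n).ks Z _ = _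
    rw [PD.Hom.ks_gen]
    have h : (PD.Hom.loops (MonoidAlgebra.mapDomainRingHom S f) n).gl u = u := by
      apply RG.ext
      ext1 i j
      exact hF (i, j) f fun g hg => hf g (Finset.mem_biUnion.mpr ⟨(i, j), Finset.mem_univ _, hg⟩)
    rw [h]
    exact PD.cls_fin Z k u

end Pool.Agent.Q171.KV
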