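import Pool.Agent.Q171.KV.Loop

/-!
Functoriality of the groups `KV_{n+1}(A)`.
-/

namespace Pool.Agent.Q171.KV

open Matrix Polynomial CategoryTheory

set_option linter.unusedSectionVars false

namespace PD

namespace Hom

variable {B D E : PD} (Z : Type) [CommRing Z]

theorem ext' {f g : Hom B D} (h : ∀ p, f.fP p = g.fP p) (h' : ∀ q, f.fQ q = g.fQ q) : f = g := by
  obtain ⟨fP, fQ, _, _, _, _⟩ := f
  obtain ⟨gP, gQ, _, _, _, _⟩ := g
  obtain rfl : fP = gP := RingHom.ext h
  obtain rfl : fQ = gQ := RingHom.ext h'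
  rfl

/-- The identity. -/
def id (B : PD) : Hom B B := ⟨RingHom.id _, RingHom.id _, fun _ => rfl, fun _ => rfl,
  fun _ h => h, fun _ h => h⟩

/-- The composite. -/
def comp (g : Hom D E) (f : Hom B D) : Hom B E where
  fP := g.fP.comp f.fP
  fQ := g.fQ.comp f.fQ
  h0 q := by rw [RingHom.comp_apply, RingHom.comp_apply, g.h0, f.h0]
  h1 q := by rw [RingHom.comp_apply, RingHom.comp_apply, g.h1, f.h1]
  hJ p hp := g.hJ _ (f.hJ p hp)
  hJQ p hp := g.hJQ _ (f.hJQ p hp)

/-- The class of a matrix. -/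
noncomputable def cl (x : D.Gen) : D.Kq Z :=
  (Submodule.span Z (D.rels Z)).mkQ (Finsupp.single x 1)

theorem kq_cl (f : Hom B D) (x : B.Gen) : f.kq Z (cl Z x) = cl Z (f.gen x) := by
  unfold kq cl
  refine (Submodule.mapQ_apply _ _ _ _).trans ?_
  rw [Finsupp.lmapDomain_apply, Finsupp.mapDomain_single]
  rfl

theorem cl_ext {M : Type} [AddCommGroup M] [Module Z M] {f g : B.Kq Z →ₗ[Z] M}
    (h : ∀ x, f (cl Z x) = g (cl Z x)) : f = g := by
  refine Submodule.linearMap_qext (p := Submodule.span Z (B.rels Z)) (M₂ := M) ?_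
  apply Finsupp.lhom_ext'
  intro x
  apply LinearMap.ext_ring
  exact h x

theorem kq_id : (id B).kq Z = LinearMap.id := by
  apply cl_ext
  intro x
  exact kq_cl Z _ x

theorem kq_comp (g : Hom D E) (f : Hom B D) : (g.comp f).kq Z = g.kq Z ∘ₗ f.kq Z := by
  apply cl_ext
  intro x
  rw [LinearMap.comp_apply, kq_cl, kq_cl, kq_cl]
  rfl

theorem loop_id : (id B).loop = id B.loop :=
  ext' (fun _ => map_id) (fun _ => map_id)

theorem loop_comp (g : Hom D E) (f : Hom B D) : (g.comp f).loop = g.loop.comp f.loop :=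
  ext' (fun p => (Polynomial.map_map f.fP g.fP p).symm)
    (fun p => (Polynomial.map_map f.fQ g.fQ p).symm)

theorem loops_id (S : Type) [Ring S] (n : ℕ) : loops (RingHom.id S) n = id (PD.loops S n) := by
  induction n with
  | zero => exact ext' (fun p => rfl) (fun p => map_id)
  | succ n ih =>
    change (loops (RingHom.id S) n).loop = _
    rw [ih]
    exact loop_id

theorem loops_comp {S T U : Type} [Ring S] [Ring T] [Ring U] (g : T →+* U) (f : S →+* T) (n : ℕ) :
    loops (g.comp f) n = (loops g n).comp (loops f n) := by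
  induction n with
  | zero => exact ext' (fun p => rfl) (fun p => (Polynomial.map_map f g p).symm)
  | succ n ih =>
    change (loops (g.comp f) n).loop = _
    rw [ih]
    exact loop_comp _ _

end Hom

end PD

theorem KVz.map_id (Z : Type) [CommRing Z] (n : ℕ) (A : Type) [Ring A] :
    KVz.map Z n (RingHom.id A) = LinearMap.id := by
  unfold KVz.map
  rw [PD.Hom.loops_id, PD.Hom.kq_id]

theorem KVz.map_comp (Z : Type) [CommRing Z] (n : ℕ) {A B C : Type} [Ring A] [Ring B] [Ring C]
    (g : B →+* C) (f : A →+* B) :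
    KVz.map Z n (g.comp f) = KVz.map Z n g ∘ₗ KVz.map Z n f := by
  unfold KVz.map
  rw [PD.Hom.loops_comp, PD.Hom.kq_comp]

end Pool.Agent.Q171.KV
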