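import Pool.Agent.Q171.KV.Def

/-!
Polynomial paths and loops: the groups `KV_{n+1}(A)` of a ring `A`, and the functors
`G ↦ KV_{n+1}(S[G])`.
-/

namespace Pool.Agent.Q171.KV

open Matrix Polynomial CategoryTheory

set_option linter.unusedSectionVars false

section Poly

variable {R R' : Type} [Ring R] [Ring R']

/-- The evaluation of polynomials at `0`. -/
noncomputable def pe0 : R[X] →+* R :=
  eval₂RingHom' (RingHom.id R) 0 (fun a => Commute.zero_right a)

/-- The evaluation of polynomials at `1`. -/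
noncomputable def pe1 : R[X] →+* R :=
  eval₂RingHom' (RingHom.id R) 1 (fun a => Commute.one_right a)

theorem pe0_C : Sec (R := R) pe0 C := fun _ => eval₂_C _ _

theorem pe1_C : Sec (R := R) pe1 C := fun _ => eval₂_C _ _

theorem pe0_X : To0 (pe0 : R[X] →+* R) X := eval₂_X _ _

theorem pe1_X : To1 (pe1 : R[X] →+* R) X := eval₂_X _ _

theorem pe0_map (f : R →+* R') (p : R[X]) : pe0 (mapRingHom f p) = f (pe0 p) := by
  have h : pe0.comp (mapRingHom f) = f.comp pe0 := by
    apply Polynomial.ringHom_ext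
    · intro r
      rw [RingHom.comp_apply, RingHom.comp_apply, coe_mapRingHom, map_C, pe0_C, pe0_C]
    · rw [RingHom.comp_apply, RingHom.comp_apply, coe_mapRingHom, map_X, pe0_X, pe0_X, map_zero]
  exact RingHom.congr_fun h p

theorem pe1_map (f : R →+* R') (p : R[X]) : pe1 (mapRingHom f p) = f (pe1 p) := by
  have h : pe1.comp (mapRingHom f) = f.comp pe1 := by
    apply Polynomial.ringHom_ext
    · intro r
      rw [RingHom.comp_apply, RingHom.comp_apply, coe_mapRingHom, map_C, pe1_C, pe1_C]
    · rw [RingHom.comp_apply, RingHom.comp_apply, coe_mapRingHom, map_X, pe1_X, pe1_X, map_one]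
  exact RingHom.congr_fun h p

variable (J : TwoSidedIdeal R) {J' : TwoSidedIdeal R'}

/-- The loops in the ideal `J`: the polynomials with coefficients in `J` which vanish at `0` and
at `1`. -/
noncomputable def loopJ : TwoSidedIdeal R[X] :=
  TwoSidedIdeal.mk' {f | (∀ n, f.coeff n ∈ J) ∧ pe0 f = 0 ∧ pe1 f = 0}
    ⟨fun n => by rw [coeff_zero]; exact zero_mem J, map_zero _, map_zero _⟩
    (fun {f g} hf hg => ⟨fun n => by rw [coeff_add]; exact J.add_mem (hf.1 n) (hg.1 n),
      by rw [map_add, hf.2.1, hg.2.1, add_zero], by rw [map_add, hf.2.2, hg.2.2, add_zero]⟩)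
    (fun {f} hf => ⟨fun n => by rw [coeff_neg]; exact J.neg_mem (hf.1 n),
      by rw [map_neg, hf.2.1, neg_zero], by rw [map_neg, hf.2.2, neg_zero]⟩)
    (fun {f g} hg => ⟨fun n => by
        rw [coeff_mul]
        exact InJ.sum _ _ fun h _ => J.mul_mem_left _ _ (hg.1 _),
      by rw [map_mul, hg.2.1, mul_zero], by rw [map_mul, hg.2.2, mul_zero]⟩)
    (fun {f g} hf => ⟨fun n => by
        rw [coeff_mul]
        exact InJ.sum _ _ fun h _ => J.mul_mem_right _ _ (hf.1 _),
      by rw [map_mul, hf.2.1, zero_mul], by rw [map_mul, hf.2.2, zero_mul]⟩)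

variable {J}

theorem mem_loopJ {f : R[X]} : f ∈ loopJ J ↔ (∀ n, f.coeff n ∈ J) ∧ pe0 f = 0 ∧ pe1 f = 0 :=
  TwoSidedIdeal.mem_mk' _ _ _ _ _ _ _

theorem loopJ_map {f : R →+* R'} (hf : Resp f J J') :
    Resp (mapRingHom f) (loopJ J) (loopJ J') := by
  intro p hp
  rw [mem_loopJ] at hp ⊢
  refine ⟨fun n => ?_, ?_, ?_⟩
  · rw [coe_mapRingHom, coeff_map]
    exact hf _ (hp.1 n)
  · rw [pe0_map, hp.2.1, map_zero]
  · rw [pe1_map, hp.2.2, map_zero]

theorem cent_C {t : R} (h : Cent t) : Cent (C t : R[X]) := by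
  intro q
  ext n
  rw [coeff_C_mul, coeff_mul_C, h]

theorem sec_map {e : R' →+* R} {i : R →+* R'} (h : Sec e i) :
    Sec (mapRingHom e) (mapRingHom i) := by
  intro p
  ext n
  rw [coe_mapRingHom, coe_mapRingHom, coeff_map, coeff_map, h]

theorem to0_map {e : R →+* R'} {t : R} (h : To0 e t) : To0 (mapRingHom e) (C t) := by
  change mapRingHom e (C t) = 0
  rw [coe_mapRingHom, map_C, h, C_0]

theorem to1_map {e : R →+* R'} {t : R} (h : To1 e t) : To1 (mapRingHom e) (C t) := by
  change mapRingHom e (C t) = 1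
  rw [coe_mapRingHom, map_C, h, C_1]

theorem sq_map {S S' : Type} [Ring S] [Ring S'] {e' : S' →+* R'} {g : S →+* S'} {f : R →+* R'}
    {e : S →+* R} (h : Sq e' g f e) :
    Sq (mapRingHom e') (mapRingHom g) (mapRingHom f) (mapRingHom e) := by
  intro q
  ext n
  simp only [coe_mapRingHom, coeff_map]
  exact h _

theorem resp_top (f : R →+* R') : Resp f ⊤ ⊤ := fun _ _ => trivial

theorem X_cent : Cent (X : R[X]) := fun _ => X_mul

end Poly

namespace PD

/-- The ring `S` with its polynomial ring `S[X]` as the ring of paths. -/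
@[reducible] noncomputable def base (S : Type) [Ring S] : PD where
  P := S
  Q := S[X]
  ι := C
  e0 := pe0
  e1 := pe1
  t := X
  tc := X_cent
  e0ι := pe0_C
  e1ι := pe1_C
  e0t := pe0_X
  e1t := pe1_X
  J := ⊤
  JQ := ⊤
  Jι := resp_top C
  J0 := resp_top pe0
  J1 := resp_top pe1

/-- The loops: the ring `P[X]` with the ideal of the loops in `J`. -/
@[reducible] noncomputable def loop (D : PD) : PD where
  P := D.P[X]
  Q := D.Q[X]
  ι := mapRingHom D.ι
  e0 := mapRingHom D.e0
  e1 := mapRingHom D.e1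
  t := C D.t
  tc := cent_C D.tc
  e0ι := sec_map D.e0ι
  e1ι := sec_map D.e1ι
  e0t := to0_map D.e0t
  e1t := to1_map D.e1t
  J := loopJ D.J
  JQ := loopJ D.JQ
  Jι := loopJ_map D.Jι
  J0 := loopJ_map D.J0
  J1 := loopJ_map D.J1

/-- The ring `S[X₁, …, X_n]` with the ideal of the `n`-fold loops. -/
noncomputable def loops (S : Type) [Ring S] : ℕ → PD
  | 0 => base S
  | n + 1 => loop (loops S n)

namespace Hom

variable {B D : PD}

/-- Loops are functorial. -/
noncomputable def loop (f : Hom B D) : Hom B.loop D.loop where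
  fP := mapRingHom f.fP
  fQ := mapRingHom f.fQ
  h0 := sq_map f.h0
  h1 := sq_map f.h1
  hJ := loopJ_map f.hJ
  hJQ := loopJ_map f.hJQ

/-- The homomorphism of the polynomial data induced by a homomorphism of rings. -/
noncomputable def base {S T : Type} [Ring S] [Ring T] (f : S →+* T) :
    Hom (PD.base S) (PD.base T) where
  fP := f
  fQ := mapRingHom f
  h0 := pe0_map f
  h1 := pe1_map f
  hJ := resp_top f
  hJQ := resp_top (mapRingHom f)

/-- The homomorphism of the data of `n`-fold loops induced by a homomorphism of rings. -/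
noncomputable def loops {S T : Type} [Ring S] [Ring T] (f : S →+* T) :
    ∀ n, Hom (PD.loops S n) (PD.loops T n)
  | 0 => base f
  | n + 1 => (loops f n).loop

end Hom

end PD

/-- The group `KV_{n+1}(A)` of Karoubi and Villamayor of a ring `A`, tensored with `Z`: the
`Z`-module of the classes of the invertible matrices over `A[X₁, …, X_n]` which are congruent to the
identity modulo the ideal of the `n`-fold loops. -/
abbrev KVz (Z : Type) [CommRing Z] (n : ℕ) (A : Type) [Ring A] : Type := (PD.loops A n).Kq Z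

/-- The map of the groups `KV_{n+1}` induced by a homomorphism of rings. -/
noncomputable def KVz.map (Z : Type) [CommRing Z] (n : ℕ) {A B : Type} [Ring A] [Ring B]
    (f : A →+* B) : KVz Z n A →ₗ[Z] KVz Z n B := (PD.Hom.loops f n).kq Z

end Pool.Agent.Q171.KV
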