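import Pool.Agent.Q171.KV.Grp

/-!
Polynomial paths and loops: the groups `KV_{n+1}(A)` of a ring `A`.
-/

namespace Pool.Agent.Q171.KV

open Matrix Polynomial CategoryTheory

set_option linter.unusedSectionVars false

namespace PD

namespace Hom

variable {B D E : PD}

variable (Z : Type) [CommRing Z] {κ l : Type} [Fintype κ] [DecidableEq κ] [Fintype l]
  [DecidableEq l]

/-- The map of matrices. -/
abbrev gl (f : Hom B D) : RG B.J κ →* RG D.J κ := RG.map f.fP f.hJ

/-- The linear map of the spaces of classes. -/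
noncomputable def ks (f : Hom B D) : B.Ks Z →ₗ[Z] D.Ks Z :=
  B.lift Z (fun _ u => cls Z (f.gl u)) (fun _ u v => by rw [map_mul, cls_mul])
    (fun _ _ j u => by rw [← pushf_map, cls_pushf])
    (fun _ h h0 => by
      have e1 : f.gl (B.E1 h) = D.E1 (RG.map (J' := D.JQ) f.fQ f.hJQ h) := by
        apply RG.ext
        ext1 i j
        exact (f.h1 _).symm
      have e0 : f.gl (B.E0 h) = D.E0 (RG.map (J' := D.JQ) f.fQ f.hJQ h) := by
        apply RG.ext
        ext1 i j
        exact (f.h0 _).symm
      rw [e1]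
      apply cls_E1
      rw [← e0, h0, map_one])

theorem ks_cls (f : Hom B D) (u : RG B.J κ) : f.ks Z (cls Z u) = cls Z (f.gl u) := by
  unfold ks
  rw [cls, lift_gen, ← pushf_map, cls_pushf]

theorem ks_gen (f : Hom B D) (k : ℕ) (u : RG B.J (Fin k)) : f.ks Z (B.gen Z k u) = cls Z (f.gl u) := by
  unfold ks
  rw [lift_gen]

theorem ks_id : (id B).ks Z = LinearMap.id := by
  apply hom_ext
  intro k u
  rw [ks_gen]
  exact cls_fin Z k u

theorem ks_comp (g : Hom D E) (f : Hom B D) : (g.comp f).ks Z = g.ks Z ∘ₗ f.ks Z := by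
  apply hom_ext
  intro k u
  rw [ks_gen, LinearMap.comp_apply, ks_gen, ks_cls]
  rfl

end Hom

end PD

/-- The group `KV_{n+1}(A)` of Karoubi and Villamayor of a ring `A`, tensored with `Z`: the
`Z`-module of the classes of the invertible matrices over `A[X₁, …, X_n]` which are congruent to the
identity modulo the ideal of the `n`-fold loops. -/
abbrev KVs (Z : Type) [CommRing Z] (n : ℕ) (A : Type) [Ring A] : Type := (PD.loops A n).Ks Z

/-- The map of the groups `KV_{n+1}` induced by a homomorphism of rings. -/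
noncomputable def KVs.map (Z : Type) [CommRing Z] (n : ℕ) {A B : Type} [Ring A] [Ring B]
    (f : A →+* B) : KVs Z n A →ₗ[Z] KVs Z n B := (PD.Hom.loops f n).ks Z

theorem KVs.map_id (Z : Type) [CommRing Z] (n : ℕ) (A : Type) [Ring A] :
    KVs.map Z n (RingHom.id A) = LinearMap.id := by
  unfold KVs.map
  rw [PD.Hom.loops_id, PD.Hom.ks_id]

theorem KVs.map_comp (Z : Type) [CommRing Z] (n : ℕ) {A B C : Type} [Ring A] [Ring B] [Ring C]
    (g : B →+* C) (f : A →+* B) :
    KVs.map Z n (g.comp f) = KVs.map Z n g ∘ₗ KVs.map Z n f := by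
  unfold KVs.map
  rw [PD.Hom.loops_comp, PD.Hom.ks_comp]

end Pool.Agent.Q171.KV
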