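import Pool.Agent.Q171.KV.Sub

/-!
The class of a matrix does not change under `u ↦ 1 + V (u - 1) W`, where `W V = 1`.
-/

namespace Pool.Agent.Q171.KV

open Matrix

set_option linter.unusedSectionVars false

section Blocks

variable {R R' : Type} [Ring R] [Ring R'] {J : TwoSidedIdeal R} {J' : TwoSidedIdeal R'}
  {κ l : Type} [Fintype κ] [DecidableEq κ] [Fintype l] [DecidableEq l]

/-- The upper triangular matrix `[[1, V], [0, 1]]`. -/
def upp (V : Matrix l κ R) : (Matrix (l ⊕ κ) (l ⊕ κ) R)ˣ where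
  val := fromBlocks 1 V 0 1
  inv := fromBlocks 1 (-V) 0 1
  val_inv := by
    rw [fromBlocks_multiply, ← fromBlocks_one]
    simp
  inv_val := by
    rw [fromBlocks_multiply, ← fromBlocks_one]
    simp

/-- The lower triangular matrix `[[1, 0], [W, 1]]`. -/
def low (W : Matrix κ l R) : (Matrix (l ⊕ κ) (l ⊕ κ) R)ˣ where
  val := fromBlocks 1 0 W 1
  inv := fromBlocks 1 0 (-W) 1
  val_inv := by
    rw [fromBlocks_multiply, ← fromBlocks_one]
    simp
  inv_val := by
    rw [fromBlocks_multiply, ← fromBlocks_one]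
    simp

theorem sub_blocks (A A' : Matrix l l R) (B B' : Matrix l κ R) (C C' : Matrix κ l R)
    (D D' : Matrix κ κ R) :
    fromBlocks A B C D - fromBlocks A' B' C' D' = fromBlocks (A - A') (B - B') (C - C') (D - D') := by
  rw [sub_eq_add_neg, fromBlocks_neg, fromBlocks_add]
  simp only [sub_eq_add_neg]

theorem InJ.blocks {A : Matrix l l R} {B : Matrix l κ R} {C : Matrix κ l R} {D : Matrix κ κ R}
    (hA : InJ J A) (hB : InJ J B) (hC : InJ J C) (hD : InJ J D) : InJ J (fromBlocks A B C D) := by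
  rintro (i | i) (j | j)
  · exact hA i j
  · exact hB i j
  · exact hC i j
  · exact hD i j

/-- The lower triangular matrix `[[1, 0], [W, 1]]` for a matrix `W` with entries in the ideal. -/
def lowJ (W : Matrix κ l R) (hW : InJ J W) : RG J (l ⊕ κ) :=
  ⟨low W, by
    change InJ J (fromBlocks 1 0 W 1 - 1)
    rw [← fromBlocks_one, sub_blocks, sub_self, sub_self, sub_self, sub_zero]
    exact InJ.blocks InJ.zero InJ.zero hW InJ.zero⟩

/-- Conjugation by an invertible matrix. -/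
def conjJ (U : (Matrix κ κ R)ˣ) (x : RG J κ) : RG J κ :=
  ⟨U * x.1 * U⁻¹, by
    change InJ J _
    have h : ((U * x.1 * U⁻¹ : (Matrix κ κ R)ˣ) : Matrix κ κ R) - 1 =
        U.1 * (x.1.1 - 1) * (U⁻¹).1 := by
      rw [mul_sub, mul_one, sub_mul, Units.mul_inv]
      rfl
    rw [h]
    exact (InJ.mul_left _ x.2).mul_right _⟩

end Blocks

namespace PD

variable {D : PD} {κ l : Type} [Fintype κ] [DecidableEq κ] [Fintype l] [DecidableEq l]
  (Z : Type) [CommRing Z]

theorem cls_low (W : Matrix κ l D.P) (hW : InJ D.J W) : cls Z (lowJ W hW) = 0 := by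
  have hQ : InJ D.JQ (D.t • (W.map D.ι)) := by
    intro i j
    exact D.JQ.mul_mem_left _ _ (D.Jι _ (hW i j))
  have h := cls_E1 Z (D := D) (lowJ (D.t • (W.map D.ι)) hQ) (by
    apply RG.ext
    ext i j
    change D.e0 ((fromBlocks 1 0 (D.t • (W.map D.ι)) 1 : Matrix (l ⊕ κ) (l ⊕ κ) D.Q) i j) =
      (1 : Matrix (l ⊕ κ) (l ⊕ κ) D.P) i j
    rw [← fromBlocks_one]
    rcases i with i | i <;> rcases j with j | j
    · simp [Matrix.one_apply, apply_ite D.e0]
    · simp
    · simp [D.e0t]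
    · simp [Matrix.one_apply, apply_ite D.e0])
  rw [← h]
  congr 1
  apply RG.ext
  ext i j
  change (fromBlocks 1 0 W 1 : Matrix (l ⊕ κ) (l ⊕ κ) D.P) i j =
    D.e1 ((fromBlocks 1 0 (D.t • (W.map D.ι)) 1 : Matrix (l ⊕ κ) (l ⊕ κ) D.Q) i j)
  rcases i with i | i <;> rcases j with j | j
  · simp [Matrix.one_apply, apply_ite D.e1]
  · simp
  · simp [D.e1t, D.e1ι]
  · simp [Matrix.one_apply, apply_ite D.e1]

theorem map_upp_e0 (V : Matrix l κ D.P) :
    (upp (D.t • (V.map D.ι)) : (Matrix (l ⊕ κ) (l ⊕ κ) D.Q)ˣ).1.map D.e0 = 1 ∧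
    (upp (D.t • (V.map D.ι)) : (Matrix (l ⊕ κ) (l ⊕ κ) D.Q)ˣ).2.map D.e0 = 1 := by
  constructor
  · ext i j
    change D.e0 ((fromBlocks 1 (D.t • (V.map D.ι)) 0 1 : Matrix (l ⊕ κ) (l ⊕ κ) D.Q) i j) =
      (1 : Matrix (l ⊕ κ) (l ⊕ κ) D.P) i j
    rw [← fromBlocks_one]
    rcases i with i | i <;> rcases j with j | j
    · simp [Matrix.one_apply, apply_ite D.e0]
    · simp [D.e0t]
    · simp
    · simp [Matrix.one_apply, apply_ite D.e0]
  · ext i j
    change D.e0 ((fromBlocks 1 (-(D.t • (V.map D.ι))) 0 1 : Matrix (l ⊕ κ) (l ⊕ κ) D.Q) i j) =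
      (1 : Matrix (l ⊕ κ) (l ⊕ κ) D.P) i j
    rw [← fromBlocks_one]
    rcases i with i | i <;> rcases j with j | j
    · simp [Matrix.one_apply, apply_ite D.e0]
    · simp [D.e0t]
    · simp
    · simp [Matrix.one_apply, apply_ite D.e0]

theorem map_upp_e1 (V : Matrix l κ D.P) :
    (upp (D.t • (V.map D.ι)) : (Matrix (l ⊕ κ) (l ⊕ κ) D.Q)ˣ).1.map D.e1 = (upp V).1 ∧
    (upp (D.t • (V.map D.ι)) : (Matrix (l ⊕ κ) (l ⊕ κ) D.Q)ˣ).2.map D.e1 = (upp V).2 := by
  constructor
  · ext i j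
    change D.e1 ((fromBlocks 1 (D.t • (V.map D.ι)) 0 1 : Matrix (l ⊕ κ) (l ⊕ κ) D.Q) i j) =
      (fromBlocks 1 V 0 1 : Matrix (l ⊕ κ) (l ⊕ κ) D.P) i j
    rcases i with i | i <;> rcases j with j | j
    · simp [Matrix.one_apply, apply_ite D.e1]
    · simp [D.e1t, D.e1ι]
    · simp
    · simp [Matrix.one_apply, apply_ite D.e1]
  · ext i j
    change D.e1 ((fromBlocks 1 (-(D.t • (V.map D.ι))) 0 1 : Matrix (l ⊕ κ) (l ⊕ κ) D.Q) i j) =
      (fromBlocks 1 (-V) 0 1 : Matrix (l ⊕ κ) (l ⊕ κ) D.P) i j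
    rcases i with i | i <;> rcases j with j | j
    · simp [Matrix.one_apply, apply_ite D.e1]
    · simp [D.e1t, D.e1ι]
    · simp
    · simp [Matrix.one_apply, apply_ite D.e1]

theorem cls_conj_upp (V : Matrix l κ D.P) (x : RG D.J (l ⊕ κ)) :
    cls Z (conjJ (upp V) x) = cls Z x := by
  have h := cls_homotopy Z (D := D) (conjJ (upp (D.t • (V.map D.ι))) (D.I x))
  have h1 : D.E1 (conjJ (upp (D.t • (V.map D.ι))) (D.I x)) = conjJ (upp V) x := by
    apply RG.ext
    change (((upp (D.t • (V.map D.ι))).1 * (D.I x).1.1 * (upp (D.t • (V.map D.ι))).2).map D.e1) =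
      (upp V).1 * x.1.1 * (upp V).2
    rw [mul_map, mul_map, (map_upp_e1 V).1, (map_upp_e1 V).2]
    congr 2
    exact congrArg (fun y : RG D.J (l ⊕ κ) => y.1.1) (D.E1_I x)
  have h0 : D.E0 (conjJ (upp (D.t • (V.map D.ι))) (D.I x)) = x := by
    apply RG.ext
    change (((upp (D.t • (V.map D.ι))).1 * (D.I x).1.1 * (upp (D.t • (V.map D.ι))).2).map D.e0) =
      x.1.1
    rw [mul_map, mul_map, (map_upp_e0 V).1, (map_upp_e0 V).2, one_mul, mul_one]
    exact congrArg (fun y : RG D.J (l ⊕ κ) => y.1.1) (D.E0_I x)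
  rw [h1, h0] at h
  exact h

theorem pushf_inr (u : RG D.J κ) :
    (pushf (Function.Embedding.inr : κ ↪ l ⊕ κ) u).1.1 = fromBlocks 1 0 0 u.1.1 := by
  rw [pushf_val]
  symm
  apply eq_pushf
  · intro i j
    rfl
  · intro a b h
    rw [← fromBlocks_one]
    rcases a with a | a <;> rcases b with b | b
    · rfl
    · rfl
    · rfl
    · rcases h with h | h
      · exact absurd rfl (h a)
      · exact absurd rfl (h b)

theorem pushf_inl (u : RG D.J l) :
    (pushf (Function.Embedding.inl : l ↪ l ⊕ κ) u).1.1 = fromBlocks u.1.1 0 0 1 := by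
  rw [pushf_val]
  symm
  apply eq_pushf
  · intro i j
    rfl
  · intro a b h
    rw [← fromBlocks_one]
    rcases a with a | a <;> rcases b with b | b
    · rcases h with h | h
      · exact absurd rfl (h a)
      · exact absurd rfl (h b)
    · rfl
    · rfl
    · rfl

/-- The class of `1 + V (u - 1) W` is the class of `u`, if `W V = 1`. -/
theorem cls_push (V : Matrix l κ D.P) (W : Matrix κ l D.P) (h : W * V = 1) (u : RG D.J κ) :
    cls Z (push V W h u) = cls Z u := by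
  have hm : InJ D.J (-((u.1.1 - 1) * W)) := (InJ.mul_right u.2 W).neg
  have key : lowJ (-((u.1.1 - 1) * W)) hm * pushf (Function.Embedding.inr : κ ↪ l ⊕ κ) u =
      conjJ (upp V) (pushf (Function.Embedding.inl : l ↪ l ⊕ κ) (push V W h u) *
        lowJ (-((u.1.1 - 1) * W)) hm) := by
    apply RG.ext
    change fromBlocks 1 0 (-((u.1.1 - 1) * W)) 1 *
        (pushf (Function.Embedding.inr : κ ↪ l ⊕ κ) u).1.1 =
      (upp V).1 * ((pushf (Function.Embedding.inl : l ↪ l ⊕ κ) (push V W h u)).1.1 *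
        fromBlocks 1 0 (-((u.1.1 - 1) * W)) 1) * (upp V)⁻¹.1
    rw [Units.eq_mul_inv_iff_mul_eq, pushf_inr, pushf_inl, push_val]
    change _ * fromBlocks 1 V 0 1 = fromBlocks 1 V 0 1 * _
    rw [fromBlocks_multiply, fromBlocks_multiply, fromBlocks_multiply, fromBlocks_multiply]
    have e : (u.1.1 - 1) * W * V = u.1.1 - 1 := by rw [Matrix.mul_assoc, h, Matrix.mul_one]
    congr 1
    · simp [Matrix.mul_assoc]
    · simp
    · simp
    · simp [e]
  have h2 := congrArg (cls Z) key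
  rw [cls_conj_upp, cls_mul, cls_mul, cls_low, zero_add, add_zero, cls_pushf, cls_pushf] at h2
  exact h2.symm

/-- The class does not change under conjugation by an invertible matrix. -/
theorem cls_conj (U : (Matrix κ κ D.P)ˣ) (x : RG D.J κ) : cls Z (conjJ U x) = cls Z x := by
  rw [← cls_push Z U.1 (U⁻¹).1 (Units.inv_mul U) x]
  congr 1
  apply RG.ext
  rw [push_val]
  change U.1 * x.1.1 * (U⁻¹).1 = _
  have e : 1 + U.1 * (x.1.1 - 1) * (U⁻¹).1 = 1 + (U.1 * x.1.1 * (U⁻¹).1 - U.1 * (U⁻¹).1) := by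
    noncomm_ring
  rw [e, Units.mul_inv]
  abel

end PD

end Pool.Agent.Q171.KV
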