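import Pool.Agent.Q171.KV.Grp

/-!
Invertible matrices of endomorphisms of the free right module with basis `A` which differ from the
identity in finitely many entries, and their classes.
-/

namespace Pool.Agent.Q171.KV

open Matrix Pool.Agent.Y483 MulOpposite

set_option linter.unusedSectionVars false

/-- The endomorphisms of the free right `S`-module with basis `A`. -/
def EE (S A : Type) [Ring S] : Type := Module.End Sᵐᵒᵖ (A →₀ S)

noncomputable instance (S A : Type) [Ring S] : Ring (EE S A) :=
  inferInstanceAs (Ring (Module.End Sᵐᵒᵖ (A →₀ S)))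

section Ent

variable {S : Type} [Ring S] {A : Type} {κ l μ : Type} [Fintype κ] [DecidableEq κ] [Fintype l]
  [DecidableEq l] [Fintype μ] [DecidableEq μ]

/-- The entries of an endomorphism of the free right module with basis `A`. -/
noncomputable def ent (x : EE S A) (a b : A) : S :=
  (show Module.End Sᵐᵒᵖ (A →₀ S) from x) (Finsupp.single b 1) a

/-- The value of an endomorphism. -/
noncomputable def ev (x : EE S A) (v : A →₀ S) : A →₀ S :=
  (show Module.End Sᵐᵒᵖ (A →₀ S) from x) v

theorem ent_add (x y : EE S A) (a b : A) : ent (x + y) a b = ent x a b + ent y a b := rfl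

theorem ent_sub (x y : EE S A) (a b : A) : ent (x - y) a b = ent x a b - ent y a b := rfl

theorem ent_neg (x : EE S A) (a b : A) : ent (-x) a b = -ent x a b := rfl

theorem ent_zero (a b : A) : ent (0 : EE S A) a b = 0 := rfl

theorem ent_sum {ι : Type} (s : Finset ι) (f : ι → EE S A) (a b : A) :
    ent (∑ i ∈ s, f i) a b = ∑ i ∈ s, ent (f i) a b := by
  classical
  induction s using Finset.induction_on with
  | empty => rw [Finset.sum_empty, Finset.sum_empty]; rfl
  | insert i s hi ih => rw [Finset.sum_insert hi, Finset.sum_insert hi, ent_add, ih]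

theorem ent_one [DecidableEq A] (a b : A) :
    ent (1 : EE S A) a b = (1 : Matrix A A S) a b := by
  change (Finsupp.single b 1 : A →₀ S) a = _
  rw [Matrix.one_apply, Finsupp.single_apply]
  by_cases h : a = b
  · rw [if_pos h, if_pos h.symm]
  · rw [if_neg h, if_neg (Ne.symm h)]

theorem end_single (x : EE S A) (b : A) (s : S) (a : A) :
    ev x (Finsupp.single b s) a = ent x a b * s := by
  have h : (Finsupp.single b s : A →₀ S) = op s • Finsupp.single b (1 : S) := by
    rw [Finsupp.smul_single, op_smul_eq_mul, one_mul]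
  unfold ev
  rw [h, map_smul]
  rfl

theorem ent_ext {x y : EE S A} (h : ∀ a b, ent x a b = ent y a b) : x = y := by
  apply LinearMap.toAddMonoidHom_injective (M := A →₀ S)
  apply Finsupp.addHom_ext
  intro b s
  ext a
  change ev x _ a = ev y _ a
  rw [end_single, end_single, h]

theorem ent_mul_supp (x y : EE S A) (a b : A) :
    ent (x * y) a b = ∑ c ∈ (ev y (Finsupp.single b 1)).support, ent x a c * ent y c b := by
  change ev x (ev y (Finsupp.single b 1)) a = _
  conv_lhs => rw [← Finsupp.sum_single (ev y (Finsupp.single b 1)), Finsupp.sum]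
  have h : ∀ (s : Finset A) (f : A → (A →₀ S)), ev x (∑ c ∈ s, f c) a = ∑ c ∈ s, ev x (f c) a := by
    intro s f
    unfold ev
    rw [map_sum, Finsupp.finsetSum_apply]
  rw [h]
  apply Finset.sum_congr rfl
  intro c _
  rw [end_single]
  rfl

theorem ent_mul (x y : EE S A) (a b : A) (C : Finset A)
    (h : ∀ c ∉ C, ent x a c = 0 ∨ ent y c b = 0) :
    ent (x * y) a b = ∑ c ∈ C, ent x a c * ent y c b := by
  classical
  rw [ent_mul_supp]
  rw [Finset.sum_subset (Finset.subset_union_left (s₂ := C)),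
    ← Finset.sum_subset (Finset.subset_union_right (s₁ := (ev y (Finsupp.single b 1)).support))]
  · intro c _ hc
    rcases h c hc with h | h
    · rw [h, zero_mul]
    · rw [h, mul_zero]
  · intro c _ hc
    have h : ent y c b = 0 := Finsupp.notMem_support_iff.mp hc
    rw [h, mul_zero]

theorem ent_mul_zero_left (x y : EE S A) (a b : A) (h : ∀ c, ent x a c = 0) :
    ent (x * y) a b = 0 := by
  rw [ent_mul_supp]
  exact Finset.sum_eq_zero fun c _ => by rw [h, zero_mul]

theorem ent_mul_zero_right (x y : EE S A) (a b : A) (h : ∀ c, ent y c b = 0) :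
    ent (x * y) a b = 0 := by
  rw [ent_mul_supp]
  exact Finset.sum_eq_zero fun c _ => by rw [h, mul_zero]

/-- The matrix of the entries of `X` with rows in `F` and columns in `F'`. -/
noncomputable def blk (F F' : Finset A) (X : Matrix κ l (EE S A)) :
    Matrix (κ × F) (l × F') S := fun p q => ent (X p.1 q.1) p.2 q.2

theorem blk_add (F F' : Finset A) (X Y : Matrix κ l (EE S A)) :
    blk F F' (X + Y) = blk F F' X + blk F F' Y := rfl

theorem blk_sub (F F' : Finset A) (X Y : Matrix κ l (EE S A)) :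
    blk F F' (X - Y) = blk F F' X - blk F F' Y := rfl

theorem blk_one [DecidableEq A] (F : Finset A) :
    blk F F (1 : Matrix κ κ (EE S A)) = 1 := by
  ext ⟨i, a⟩ ⟨j, b⟩
  unfold blk
  rw [Matrix.one_apply, Matrix.one_apply]
  by_cases h : i = j
  · subst h
    rw [if_pos rfl, ent_one, Matrix.one_apply]
    by_cases h' : (a : A) = b
    · rw [if_pos h', if_pos (by rw [Subtype.ext h'])]
    · rw [if_neg h', if_neg (fun e => h' (by rw [(Prod.mk.inj e).2]))]
  · rw [if_neg h, ent_zero, if_neg (fun e => h (Prod.mk.inj e).1)]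

theorem blk_mul (F F' F'' : Finset A) (X : Matrix κ l (EE S A)) (Y : Matrix l μ (EE S A))
    (h : ∀ i k j, ∀ a ∈ F, ∀ c ∉ F', ∀ b ∈ F'', ent (X i k) a c = 0 ∨ ent (Y k j) c b = 0) :
    blk F F'' (X * Y) = blk F F' X * blk F' F'' Y := by
  ext ⟨i, a⟩ ⟨j, b⟩
  change ent ((X * Y) i j) a b = _
  rw [Matrix.mul_apply, Matrix.mul_apply, Fintype.sum_prod_type, ent_sum]
  apply Finset.sum_congr rfl
  intro k _
  rw [ent_mul _ _ _ _ F' (fun c hc => h i k j a a.2 c hc b b.2)]
  exact (Finset.sum_coe_sort F' (fun c => ent (X i k) a c * ent (Y k j) c b)).symm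

/-- The entries of the matrix `D` with an index outside `F` vanish. -/
def Supp (F : Finset A) (D : Matrix κ l (EE S A)) : Prop :=
  ∀ i j a b, (a ∉ F ∨ b ∉ F) → ent (D i j) a b = 0

theorem Supp.mono {F F' : Finset A} {D : Matrix κ l (EE S A)} (h : Supp F D) (hF : F ⊆ F') :
    Supp F' D := fun i j a b hab => h i j a b (hab.imp (fun h' e => h' (hF e)) (fun h' e => h' (hF e)))

theorem Supp.add {F : Finset A} {D D' : Matrix κ l (EE S A)} (h : Supp F D) (h' : Supp F D') :
    Supp F (D + D') := by
  intro i j a b hab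
  rw [Matrix.add_apply, ent_add, h i j a b hab, h' i j a b hab, add_zero]

theorem Supp.neg {F : Finset A} {D : Matrix κ l (EE S A)} (h : Supp F D) :
    Supp F (-D) := by
  intro i j a b hab
  rw [Matrix.neg_apply, ent_neg, h i j a b hab, neg_zero]

theorem Supp.mul {F : Finset A} {D : Matrix κ l (EE S A)} {D' : Matrix l μ (EE S A)}
    (h : Supp F D) (h' : Supp F D') : Supp F (D * D') := by
  intro i j a b hab
  rw [Matrix.mul_apply, ent_sum]
  apply Finset.sum_eq_zero
  intro k _
  rcases hab with ha | hb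
  · exact ent_mul_zero_left _ _ _ _ fun c => h i k a c (Or.inl ha)
  · exact ent_mul_zero_right _ _ _ _ fun c => h' k j c b (Or.inr hb)

variable (J : TwoSidedIdeal S)

/-- The entries of the matrix `D` lie in the ideal `J`. -/
def InE (D : Matrix κ l (EE S A)) : Prop := ∀ i j a b, ent (D i j) a b ∈ J

variable {J}

theorem InE.add {D D' : Matrix κ l (EE S A)} (h : InE J D) (h' : InE J D') : InE J (D + D') :=
  fun i j a b => J.add_mem (h i j a b) (h' i j a b)

theorem InE.neg {D : Matrix κ l (EE S A)} (h : InE J D) : InE J (-D) :=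
  fun i j a b => J.neg_mem (h i j a b)

theorem InE.sub {D D' : Matrix κ l (EE S A)} (h : InE J D) (h' : InE J D') : InE J (D - D') :=
  fun i j a b => J.sub_mem (h i j a b) (h' i j a b)

theorem InE.mul_left (X : Matrix κ l (EE S A)) {D : Matrix l μ (EE S A)} (h : InE J D) :
    InE J (X * D) := by
  intro i j a b
  rw [Matrix.mul_apply, ent_sum]
  apply InJ.sum
  intro k _
  rw [ent_mul_supp]
  exact InJ.sum _ _ fun c _ => J.mul_mem_left _ _ (h k j c b)

theorem InE.mul_right {D : Matrix κ l (EE S A)} (h : InE J D) (X : Matrix l μ (EE S A)) :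
    InE J (D * X) := by
  intro i j a b
  rw [Matrix.mul_apply, ent_sum]
  apply InJ.sum
  intro k _
  rw [ent_mul_supp]
  exact InJ.sum _ _ fun c _ => J.mul_mem_right _ _ (h i k a c)

theorem supp_inv {F : Finset A} (W : (Matrix κ κ (EE S A))ˣ) (h : Supp F (W.1 - 1)) :
    Supp F ((W⁻¹).1 - 1) := by
  intro i j a b hab
  rcases hab with ha | hb
  · have e : (W⁻¹).1 - 1 = -((W.1 - 1) * (W⁻¹).1) := by
      rw [sub_mul, Units.mul_inv]
      noncomm_ring
    rw [e, Matrix.neg_apply, ent_neg, Matrix.mul_apply, ent_sum, Finset.sum_eq_zero, neg_zero]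
    intro k _
    exact ent_mul_zero_left _ _ _ _ fun c => h i k a c (Or.inl ha)
  · have e : (W⁻¹).1 - 1 = -((W⁻¹).1 * (W.1 - 1)) := by
      rw [mul_sub, Units.inv_mul]
      noncomm_ring
    rw [e, Matrix.neg_apply, ent_neg, Matrix.mul_apply, ent_sum, Finset.sum_eq_zero, neg_zero]
    intro k _
    exact ent_mul_zero_right _ _ _ _ fun c => h k j c b (Or.inr hb)

theorem inE_inv (W : (Matrix κ κ (EE S A))ˣ) (h : InE J (W.1 - 1)) : InE J ((W⁻¹).1 - 1) := by
  have e : (W⁻¹).1 - 1 = -((W⁻¹).1 * (W.1 - 1)) := by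
    rw [mul_sub, Units.inv_mul]
    noncomm_ring
  rw [e]
  exact (h.mul_left _).neg

theorem blk_mul_of_supp {F F' : Finset A} (X Y : Matrix κ κ (EE S A)) (h : Supp F (X - 1)) :
    blk F F' (X * Y) = blk F F X * blk F F' Y := by
  classical
  apply blk_mul
  intro i k j a ha c hc b _
  left
  have h1 := h i k a c (Or.inr hc)
  rw [Matrix.sub_apply, ent_sub, sub_eq_zero] at h1
  rw [h1, Matrix.one_apply]
  split_ifs
  · rw [ent_one, Matrix.one_apply, if_neg]
    rintro rfl
    exact hc ha
  · exact ent_zero _ _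

variable (J) in
/-- The group of the invertible matrices of endomorphisms which differ from the identity in finitely
many entries, by elements of the ideal `J`. -/
def FP (A κ : Type) [Fintype κ] [DecidableEq κ] : Subgroup (Matrix κ κ (EE S A))ˣ where
  carrier := {W | (∃ F : Finset A, Supp F (W.1 - 1)) ∧ InE J (W.1 - 1)}
  one_mem' := by
    refine ⟨⟨∅, ?_⟩, ?_⟩
    · intro i j a b _
      rw [Units.val_one, sub_self]
      rfl
    · intro i j a b
      rw [Units.val_one, sub_self]
      exact zero_mem J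
  mul_mem' := by
    classical
    rintro U W ⟨⟨F, hF⟩, hU⟩ ⟨⟨F', hF'⟩, hW⟩
    have e : (U * W).1 - 1 = (U.1 - 1) * (W.1 - 1) + (W.1 - 1) + (U.1 - 1) := by
      rw [Units.val_mul]
      noncomm_ring
    constructor
    · refine ⟨F ∪ F', ?_⟩
      have h1 := hF.mono (Finset.subset_union_left (s₂ := F'))
      have h2 := hF'.mono (Finset.subset_union_right (s₁ := F))
      rw [e]
      exact ((h1.mul h2).add h2).add h1
    · rw [e]
      exact ((hW.mul_left _).add hW).add hU
  inv_mem' := by
    rintro W ⟨⟨F, hF⟩, hW⟩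
    exact ⟨⟨F, supp_inv W hF⟩, inE_inv W hW⟩

/-- The finite matrix of the entries of `W` with indices in `F`. -/
noncomputable def res [DecidableEq A] (W : (Matrix κ κ (EE S A))ˣ) (F : Finset A)
    (hF : Supp F (W.1 - 1)) (hJ : InE J (W.1 - 1)) : RG J (κ × F) :=
  ⟨⟨blk F F W.1, blk F F (W⁻¹).1,
    by rw [← blk_mul_of_supp _ _ hF, Units.mul_inv, blk_one],
    by rw [← blk_mul_of_supp _ _ (supp_inv W hF), Units.inv_mul, blk_one]⟩, by
    change InJ J (blk F F W.1 - 1)
    rw [← blk_one, ← blk_sub]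
    intro p q
    exact hJ _ _ _ _⟩

theorem res_mul [DecidableEq A] (U W : (Matrix κ κ (EE S A))ˣ) (F : Finset A)
    (hF : Supp F (U.1 - 1)) (hJ : InE J (U.1 - 1)) (hF' : Supp F (W.1 - 1))
    (hJ' : InE J (W.1 - 1)) (hF'' : Supp F ((U * W).1 - 1)) (hJ'' : InE J ((U * W).1 - 1)) :
    res (U * W) F hF'' hJ'' = res U F hF hJ * res W F hF' hJ' := by
  apply RG.ext
  exact blk_mul_of_supp _ _ hF

/-- The injection `(i, a) ↦ (i, a)` for an inclusion of finite sets. -/
def incl (κ : Type) {F F' : Finset A} (h : F ⊆ F') : κ × F ↪ κ × F' where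
  toFun p := (p.1, ⟨p.2, h p.2.2⟩)
  inj' := by
    rintro ⟨i, a⟩ ⟨j, b⟩ h
    have h1 := (Prod.mk.inj h).1
    have h2 := congrArg Subtype.val (Prod.mk.inj h).2
    exact Prod.ext h1 (Subtype.ext h2)

theorem res_mono [DecidableEq A] (W : (Matrix κ κ (EE S A))ˣ) {F F' : Finset A} (h : F ⊆ F')
    (hF : Supp F (W.1 - 1)) (hF' : Supp F' (W.1 - 1)) (hJ : InE J (W.1 - 1)) :
    res W F' hF' hJ = pushf (incl κ h) (res W F hF hJ) := by
  apply RG.ext
  rw [pushf_val]
  apply eq_pushf
  · intro p q
    rfl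
  · rintro ⟨i, a⟩ ⟨j, b⟩ hab
    have h1 : (a : A) ∉ F ∨ (b : A) ∉ F := by
      rcases hab with h1 | h1
      · left
        intro ha
        exact h1 (i, ⟨a, ha⟩) rfl
      · right
        intro hb
        exact h1 (j, ⟨b, hb⟩) rfl
    have h2 := hF i j a b h1
    rw [Matrix.sub_apply, ent_sub, sub_eq_zero] at h2
    change ent (W.1 i j) a b = _
    rw [h2]
    exact congrFun (congrFun (blk_one F') (i, a)) (j, b)

end Ent

end Pool.Agent.Q171.KV
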