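import Pool.Agent.Q171.KV.Cls

/-!
The monomial representation of a group ring attached to a cocycle, and the matrix `W(u)` attached to
a pair of cocycles.
-/

namespace Pool.Agent.Q171.KV

open Matrix MulOpposite Pool.Agent.Y483

set_option linter.unusedSectionVars false

section Mono

variable {S : Type} [Ring S] {A : Type}

/-- The operator `e_a s ↦ e_{f a} (d_a s)`. -/
noncomputable def mono (f : A → A) (d : A → S) : EE S A := monoEnd f d

theorem ev_mono (f : A → A) (d : A → S) (a : A) (s : S) :
    ev (mono f d) (Finsupp.single a s) = Finsupp.single (f a) (d a * s) := monoEnd_single f d a s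

variable [DecidableEq A]

theorem ent_mono (f : A → A) (d : A → S) (a b : A) :
    ent (mono f d) a b = if a = f b then d b else 0 := by
  change ev (mono f d) (Finsupp.single b 1) a = _
  rw [ev_mono, mul_one, Finsupp.single_apply]
  by_cases h : a = f b
  · rw [if_pos h, if_pos h.symm]
  · rw [if_neg h, if_neg (Ne.symm h)]

theorem mono_mul (f g : A → A) (d e : A → S) :
    mono f d * mono g e = mono (f ∘ g) (fun a => d (g a) * e a) := by
  apply ent_ext
  intro a b
  change ev (mono f d) (ev (mono g e) (Finsupp.single b 1)) a =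
    ev (mono (f ∘ g) _) (Finsupp.single b 1) a
  rw [ev_mono, ev_mono, ev_mono, mul_assoc]
  rfl

end Mono

section Rep

variable {R R' : Type} [Ring R] [Ring R'] {G A K : Type} [Group G] [Group K] [DecidableEq A]

/-- The multiplication with an element of `R`. -/
noncomputable def coefL (R A K : Type) [Ring R] [Group K] [DecidableEq A] :
    R →+* EE (MonoidAlgebra R K) A where
  toFun r := mono id (fun _ => MonoidAlgebra.single 1 r)
  map_one' := by
    apply ent_ext
    intro a b
    rw [ent_mono, ent_one, Matrix.one_apply]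
    rfl
  map_mul' r s := by
    rw [mono_mul]
    apply ent_ext
    intro a b
    rw [ent_mono, ent_mono, MonoidAlgebra.single_mul_single, one_mul]
    rfl
  map_zero' := by
    apply ent_ext
    intro a b
    rw [ent_mono, MonoidAlgebra.single_zero, ite_self]
    rfl
  map_add' r s := by
    apply ent_ext
    intro a b
    rw [ent_add, ent_mono, ent_mono, ent_mono, MonoidAlgebra.single_add]
    split_ifs
    · rfl
    · rw [add_zero]

variable (σ : G →* Equiv.Perm A) (c : G → A → K)
  (hc : ∀ g h a, c (g * h) a = c g (σ h a) * c h a)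

/-- The monomial representation of the group. -/
noncomputable def monoG (R : Type) [Ring R] : G →* EE (MonoidAlgebra R K) A where
  toFun g := mono (σ g) (fun a => MonoidAlgebra.single (c g a) 1)
  map_one' := by
    apply ent_ext
    intro a b
    rw [ent_mono, ent_one, Matrix.one_apply, map_one, cocycle_one hc]
    rfl
  map_mul' g h := by
    rw [mono_mul]
    apply ent_ext
    intro a b
    rw [ent_mono, ent_mono, MonoidAlgebra.single_mul_single, one_mul, hc, map_mul]
    rfl

theorem coefL_comm (r : R) (g : G) : Commute (coefL R A K r) (monoG σ c hc R g) := by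
  change mono _ _ * mono _ _ = mono _ _ * mono _ _
  rw [mono_mul, mono_mul]
  apply ent_ext
  intro a b
  rw [ent_mono, ent_mono, MonoidAlgebra.single_mul_single, MonoidAlgebra.single_mul_single,
    one_mul, mul_one, mul_one, one_mul]
  rfl

/-- The monomial representation of the group ring. -/
noncomputable def rho : MonoidAlgebra R G →+* EE (MonoidAlgebra R K) A :=
  MonoidAlgebra.liftNCRingHom (coefL R A K) (monoG σ c hc R) (coefL_comm σ c hc)

theorem ent_rho_single (g : G) (r : R) (a b : A) :
    ent (rho σ c hc (MonoidAlgebra.single g r)) a b =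
      if a = σ g b then MonoidAlgebra.single (c g b) r else 0 := by
  unfold rho
  rw [MonoidAlgebra.liftNCRingHom_single]
  change ent (mono _ _ * mono _ _) a b = _
  rw [mono_mul, ent_mono, MonoidAlgebra.single_mul_single, one_mul, mul_one]
  rfl

theorem ent_rho_mem {J : TwoSidedIdeal R} (x : MonoidAlgebra R G) (hx : x ∈ grpJ J G) (a b : A) :
    ent (rho σ c hc x) a b ∈ grpJ J K := by
  refine grpJ_induction (motive := fun x => ent (rho σ c hc x) a b ∈ grpJ J K) x hx ?_ ?_ ?_
  · rw [map_zero]
    exact zero_mem _
  · intro x y hx hy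
    rw [map_add]
    exact (grpJ J K).add_mem hx hy
  · intro g r hr
    rw [ent_rho_single]
    split_ifs
    · exact single_mem_grpJ _ _ hr
    · exact zero_mem _

theorem ent_rho_map (φ : R →+* R') (x : MonoidAlgebra R G) (a b : A) :
    MonoidAlgebra.mapRingHom K φ (ent (rho σ c hc x) a b) =
      ent (rho σ c hc (MonoidAlgebra.mapRingHom G φ x)) a b := by
  induction x using MonoidAlgebra.induction_linear with
  | zero =>
    rw [map_zero, map_zero, map_zero]
    exact map_zero _
  | add x y hx hy => rw [map_add, map_add, map_add, ent_add, ent_add, map_add, hx, hy]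
  | single g r =>
    rw [ent_rho_single, MonoidAlgebra.mapRingHom_single, ent_rho_single]
    split_ifs
    · rw [MonoidAlgebra.mapRingHom_single]
    · exact map_zero _

theorem rho_diff (d : G → A → K) (hd : ∀ g h a, d (g * h) a = d g (σ h a) * d h a)
    (hfin : ∀ g, {a | c g a ≠ d g a}.Finite) (x : MonoidAlgebra R G) :
    ∃ F : Finset A, ∀ a b, (a ∉ F ∨ b ∉ F) →
      ent (rho σ c hc x) a b = ent (rho σ d hd x) a b := by
  induction x using MonoidAlgebra.induction_linear with
  | zero =>
    refine ⟨∅, fun a b _ => ?_⟩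
    rw [map_zero, map_zero]
  | add x y hx hy =>
    obtain ⟨F, hF⟩ := hx
    obtain ⟨F', hF'⟩ := hy
    refine ⟨F ∪ F', fun a b hab => ?_⟩
    rw [map_add, map_add, ent_add, ent_add, hF a b, hF' a b]
    · exact hab.imp (fun h e => h (Finset.mem_union_right _ e))
        (fun h e => h (Finset.mem_union_right _ e))
    · exact hab.imp (fun h e => h (Finset.mem_union_left _ e))
        (fun h e => h (Finset.mem_union_left _ e))
  | single g r =>
    refine ⟨(hfin g).toFinset ∪ (hfin g).toFinset.image (σ g), fun a b hab => ?_⟩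
    rw [ent_rho_single, ent_rho_single]
    by_cases h : a = σ g b
    · rw [if_pos h, if_pos h]
      have hb : b ∉ (hfin g).toFinset := by
        intro hb
        rcases hab with h1 | h1
        · exact h1 (Finset.mem_union_right _ (h ▸ Finset.mem_image_of_mem _ hb))
        · exact h1 (Finset.mem_union_left _ hb)
      have h2 : c g b = d g b := by
        by_contra hne
        exact hb ((hfin g).mem_toFinset.mpr hne)
      rw [h2]
    · rw [if_neg h, if_neg h]

theorem rho_map_fix {G₀ : Type} [Group G₀] (j : G₀ →* G) (l : G₀ →* K) (b : A)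
    (h : ∀ g, σ (j g) b = b ∧ l g = c (j g) b) (x : MonoidAlgebra R G₀) (a : A) :
    ent (rho σ c hc (MonoidAlgebra.mapDomainRingHom R j x)) a b =
      if a = b then MonoidAlgebra.mapDomainRingHom R l x else 0 := by
  induction x using MonoidAlgebra.induction_linear with
  | zero =>
    rw [map_zero, map_zero, map_zero, ite_self]
    rfl
  | add x y hx hy =>
    rw [map_add, map_add, map_add, ent_add, hx, hy]
    split_ifs
    · rfl
    · rw [add_zero]
  | single g r =>
    rw [MonoidAlgebra.mapDomainRingHom_apply, MonoidAlgebra.mapDomain_single, ent_rho_single,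
      (h g).1, MonoidAlgebra.mapDomainRingHom_apply, MonoidAlgebra.mapDomain_single, (h g).2]

theorem rho_map_eq {G₀ : Type} [Group G₀] (j : G₀ →* G) (d : G → A → K)
    (hd : ∀ g h a, d (g * h) a = d g (σ h a) * d h a) (b : A)
    (h : ∀ g, c (j g) b = d (j g) b) (x : MonoidAlgebra R G₀) (a : A) :
    ent (rho σ c hc (MonoidAlgebra.mapDomainRingHom R j x)) a b =
      ent (rho σ d hd (MonoidAlgebra.mapDomainRingHom R j x)) a b := by
  induction x using MonoidAlgebra.induction_linear with
  | zero => rw [map_zero, map_zero, map_zero]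
  | add x y hx hy => rw [map_add, map_add, map_add, ent_add, ent_add, hx, hy]
  | single g r =>
    rw [MonoidAlgebra.mapDomainRingHom_apply, MonoidAlgebra.mapDomain_single, ent_rho_single,
      ent_rho_single, h]

end Rep

section SuppMul

variable {S : Type} [Ring S] {A : Type} [DecidableEq A] {κ l μ : Type} [Fintype κ] [Fintype l]
  [Fintype μ] [DecidableEq κ] [DecidableEq l] [DecidableEq μ]

theorem supp_mul_left (X : Matrix κ l (EE S A)) {D : Matrix l μ (EE S A)} {F : Finset A}
    (hD : Supp F D) : ∃ F' : Finset A, Supp F' (X * D) := by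
  refine ⟨F ∪ Finset.univ.biUnion fun p : κ × l =>
    F.biUnion fun b => (ev (X p.1 p.2) (Finsupp.single b 1)).support, ?_⟩
  intro i j a b hab
  rw [Matrix.mul_apply, ent_sum]
  apply Finset.sum_eq_zero
  intro k _
  rcases hab with h | h
  · rw [ent_mul _ _ _ _ F fun c hc => Or.inr (hD k j c b (Or.inl hc))]
    apply Finset.sum_eq_zero
    intro c hc
    have h0 : ent (X i k) a c = 0 := by
      by_contra hne
      apply h
      apply Finset.mem_union_right
      apply Finset.mem_biUnion.mpr
      refine ⟨(i, k), Finset.mem_univ _, ?_⟩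
      apply Finset.mem_biUnion.mpr
      exact ⟨c, hc, Finsupp.mem_support_iff.mpr hne⟩
    rw [h0, zero_mul]
  · exact ent_mul_zero_right _ _ _ _ fun c =>
      hD k j c b (Or.inr fun e => h (Finset.mem_union_left _ e))

end SuppMul

section W

variable {R : Type} [Ring R] {J : TwoSidedIdeal R} {G A K : Type} [Group G] [Group K]
  [DecidableEq A] (p : FinPair G A K) {κ l : Type} [Fintype κ] [DecidableEq κ] [Fintype l]
  [DecidableEq l]

/-- The image of an invertible matrix under the first representation. -/
noncomputable def XX (u : RG (grpJ J G) κ) : (Matrix κ κ (EE (MonoidAlgebra R K) A))ˣ :=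
  Units.map ((rho p.σ p.c p.mul_c).mapMatrix : Matrix κ κ (MonoidAlgebra R G) →+* _).toMonoidHom u.1

/-- The image of an invertible matrix under the second representation. -/
noncomputable def YY (u : RG (grpJ J G) κ) : (Matrix κ κ (EE (MonoidAlgebra R K) A))ˣ :=
  Units.map ((rho p.σ p.d p.mul_d).mapMatrix : Matrix κ κ (MonoidAlgebra R G) →+* _).toMonoidHom u.1

theorem XX_mul (u v : RG (grpJ J G) κ) : XX p (u * v) = XX p u * XX p v := map_mul _ _ _

theorem YY_mul (u v : RG (grpJ J G) κ) : YY p (u * v) = YY p u * YY p v := map_mul _ _ _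

theorem XX_sub_YY (u : RG (grpJ J G) κ) :
    (∃ F : Finset A, Supp F ((XX p u).1 - (YY p u).1)) ∧
      InE (grpJ J K) ((XX p u).1 - (YY p u).1) := by
  constructor
  · choose F hF using fun q : κ × κ =>
      rho_diff (R := R) p.σ p.c p.mul_c p.d p.mul_d p.fin (u.1.1 q.1 q.2)
    refine ⟨Finset.univ.biUnion F, ?_⟩
    intro i j a b hab
    rw [Matrix.sub_apply, ent_sub, sub_eq_zero]
    apply hF (i, j) a b
    exact hab.imp (fun h e => h (Finset.mem_biUnion.mpr ⟨(i, j), Finset.mem_univ _, e⟩))
      (fun h e => h (Finset.mem_biUnion.mpr ⟨(i, j), Finset.mem_univ _, e⟩))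
  · have e : (XX p u).1 - (YY p u).1 = (rho p.σ p.c p.mul_c).mapMatrix (u.1.1 - 1) -
        (rho p.σ p.d p.mul_d).mapMatrix (u.1.1 - 1) := by
      rw [map_sub, map_sub, map_one, map_one, sub_sub_sub_cancel_right]
      rfl
    rw [e]
    apply InE.sub
    · intro i j a b
      exact ent_rho_mem _ _ _ _ (u.2 i j) a b
    · intro i j a b
      exact ent_rho_mem _ _ _ _ (u.2 i j) a b

/-- The matrix `W(u) = Y(u)⁻¹ X(u)`. -/
noncomputable def WW (u : RG (grpJ J G) κ) : FP (grpJ J K) A κ :=
  ⟨(YY p u)⁻¹ * XX p u, by
    have e : ((YY p u)⁻¹ * XX p u).1 - 1 = ((YY p u)⁻¹).1 * ((XX p u).1 - (YY p u).1) := by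
      rw [mul_sub, Units.inv_mul]
      rfl
    obtain ⟨⟨F, hF⟩, hJ⟩ := XX_sub_YY p u
    constructor
    · rw [e]
      exact supp_mul_left _ hF
    · rw [e]
      exact hJ.mul_left _⟩

end W

end Pool.Agent.Q171.KV
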