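import Pool.Agent.Q171.KV.Lem

/-!
The group structure on the matrices congruent to the identity modulo an ideal, and the classes.
-/

namespace Pool.Agent.Q171.KV

open Matrix

set_option linter.unusedSectionVars false

section Rel

variable {R R' : Type} [Ring R] [Ring R'] {J : TwoSidedIdeal R} {J' : TwoSidedIdeal R'}
  {κ l μ ν : Type}

theorem InJ.map {M : Matrix κ l R} (hM : InJ J M) (f : R →+* R') (hf : ∀ x ∈ J, f x ∈ J') :
    InJ J' (M.map f) := fun i j => hf _ (hM i j)

theorem mul_sub_one_add {A : Type} [Ring A] (u v : A) : u * v - 1 = u * (v - 1) + (u - 1) := by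
  noncomm_ring

variable (J) [Fintype κ] [DecidableEq κ] [Fintype l] [DecidableEq l] [Fintype μ] [DecidableEq μ]

/-- The group of the invertible `κ × κ`-matrices over `R` which are congruent to the identity
modulo the ideal `J`. -/
def RG (κ : Type) [Fintype κ] [DecidableEq κ] : Subgroup (Matrix κ κ R)ˣ where
  carrier := {u | InJ J ((u : Matrix κ κ R) - 1)}
  one_mem' := by
    change InJ J _
    rw [Units.val_one, sub_self]
    exact InJ.zero
  mul_mem' hu hv := by
    change InJ J _
    rw [Units.val_mul, mul_sub_one_add]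
    exact (InJ.mul_left _ hv).add hu
  inv_mem' {u} hu := by
    change InJ J _
    have h : ((u⁻¹ : (Matrix κ κ R)ˣ) : Matrix κ κ R) - 1 =
        -((u⁻¹ : (Matrix κ κ R)ˣ).1 * (u.1 - 1)) := by
      rw [mul_sub, Units.inv_mul]
      noncomm_ring
    rw [h]
    exact (InJ.mul_left _ hu).neg

variable {J}

/-- A multiplicative map of matrices induces a homomorphism of the groups of matrices congruent to
the identity modulo an ideal, if it respects the congruences. -/
def RG.lift (f : Matrix κ κ R →* Matrix l l R') (hf : ∀ x, InJ J (x - 1) → InJ J' (f x - 1)) :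
    RG J κ →* RG J' l where
  toFun u := ⟨Units.map f u.1, hf _ u.2⟩
  map_one' := Subtype.ext (map_one _)
  map_mul' _ _ := Subtype.ext (map_mul _ _ _)

theorem RG.ext {u v : RG J κ} (h : u.1.1 = v.1.1) : u = v := Subtype.ext (Units.ext h)

/-- The map of matrices induced by a homomorphism of rings. -/
def RG.map (f : R →+* R') (hf : ∀ x ∈ J, f x ∈ J') : RG J κ →* RG J' κ :=
  RG.lift (f.mapMatrix : Matrix κ κ R →+* Matrix κ κ R').toMonoidHom (by
    intro x hx
    have h := hx.map f hf
    have e : ((f.mapMatrix : Matrix κ κ R →+* Matrix κ κ R') x - 1) = (x - 1).map f := by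
      rw [← map_one (f.mapMatrix : Matrix κ κ R →+* Matrix κ κ R'), ← map_sub]
      rfl
    exact e ▸ h)

@[simp] theorem RG.map_val (f : R →+* R') (hf : ∀ x ∈ J, f x ∈ J') (u : RG J κ) :
    (RG.map (J' := J') f hf u).1.1 = u.1.1.map f := rfl

/-- The map `x ↦ 1 + V (x - 1) W`. -/
def pushM (V : Matrix l κ R) (W : Matrix κ l R) (h : W * V = 1) :
    Matrix κ κ R →* Matrix l l R where
  toFun x := 1 + V * (x - 1) * W
  map_one' := by rw [sub_self, Matrix.mul_zero, Matrix.zero_mul, add_zero]
  map_mul' x y := by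
    have e : V * (x - 1) * W * (V * (y - 1) * W) = V * ((x - 1) * (y - 1)) * W := by
      rw [Matrix.mul_assoc (V * (x - 1)) W, ← Matrix.mul_assoc W, ← Matrix.mul_assoc W, h,
        Matrix.one_mul, ← Matrix.mul_assoc, ← Matrix.mul_assoc]
    have e2 : x * y - 1 = (x - 1) + (y - 1) + (x - 1) * (y - 1) := by noncomm_ring
    rw [add_mul, mul_add, mul_add, one_mul, mul_one, one_mul, e, e2, Matrix.mul_add,
      Matrix.mul_add, Matrix.add_mul, Matrix.add_mul]
    abel

/-- The homomorphism `x ↦ 1 + V (x - 1) W`. -/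
def push (V : Matrix l κ R) (W : Matrix κ l R) (h : W * V = 1) : RG J κ →* RG J l :=
  RG.lift (pushM V W h) (by
    intro x hx
    change InJ J (1 + V * (x - 1) * W - 1)
    rw [add_sub_cancel_left]
    exact (InJ.mul_left _ hx).mul_right _)

theorem push_val (V : Matrix l κ R) (W : Matrix κ l R) (h : W * V = 1) (u : RG J κ) :
    (push V W h u).1.1 = 1 + V * (u.1.1 - 1) * W := rfl

variable (R) in
/-- The matrix of an injection. -/
def emb (f : κ ↪ l) : Matrix l κ R := fun a i => if a = f i then 1 else 0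

variable (R) in
/-- The transpose of the matrix of an injection. -/
def embT (f : κ ↪ l) : Matrix κ l R := fun i a => if a = f i then 1 else 0

theorem emb_mul_apply (f : κ ↪ l) (M : Matrix κ μ R) (a : l) (j : μ) :
    (emb R f * M) a j = ∑ i, if a = f i then M i j else 0 := by
  rw [Matrix.mul_apply]
  apply Finset.sum_congr rfl
  intro i _
  unfold emb
  split_ifs <;> simp

theorem mul_embT_apply (f : κ ↪ l) (M : Matrix μ κ R) (i : μ) (b : l) :
    (M * embT R f) i b = ∑ j, if b = f j then M i j else 0 := by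
  rw [Matrix.mul_apply]
  apply Finset.sum_congr rfl
  intro j _
  unfold embT
  split_ifs <;> simp

theorem embT_mul (f : κ ↪ l) (M : Matrix l μ R) (i : κ) (j : μ) :
    (embT R f * M) i j = M (f i) j := by
  rw [Matrix.mul_apply, Finset.sum_eq_single (f i)]
  · unfold embT
    rw [if_pos rfl, one_mul]
  · intro b _ hb
    unfold embT
    rw [if_neg hb, zero_mul]
  · intro h
    exact absurd (Finset.mem_univ _) h

theorem mul_emb (f : κ ↪ l) (M : Matrix μ l R) (i : μ) (j : κ) :
    (M * emb R f) i j = M i (f j) := by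
  rw [Matrix.mul_apply, Finset.sum_eq_single (f j)]
  · unfold emb
    rw [if_pos rfl, mul_one]
  · intro b _ hb
    unfold emb
    rw [if_neg hb, mul_zero]
  · intro h
    exact absurd (Finset.mem_univ _) h

theorem embT_mul_emb (f : κ ↪ l) : embT R f * emb R f = 1 := by
  ext i j
  rw [embT_mul]
  unfold emb
  rw [Matrix.one_apply]
  by_cases h : i = j
  · rw [if_pos (by rw [h]), if_pos h]
  · rw [if_neg (fun e => h (f.injective e)), if_neg h]

theorem emb_trans (f : κ ↪ l) (g : l ↪ μ) : emb R g * emb R f = emb R (f.trans g) := by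
  ext a i
  rw [mul_emb]
  rfl

theorem embT_trans (f : κ ↪ l) (g : l ↪ μ) : embT R f * embT R g = embT R (f.trans g) := by
  ext i a
  rw [embT_mul]
  rfl

/-- The stabilization of a matrix along an injection `f`: the matrix whose entry at `(f i, f j)`
is the entry of `u` at `(i, j)`, and whose other entries are those of the identity. -/
def pushf (f : κ ↪ l) : RG J κ →* RG J l := push (emb R f) (embT R f) (embT_mul_emb f)

theorem pushf_val (f : κ ↪ l) (u : RG J κ) :
    (pushf f u).1.1 = 1 + emb R f * (u.1.1 - 1) * embT R f := rfl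

theorem emb_conj_apply (f : κ ↪ l) (M : Matrix κ κ R) (i j : κ) :
    (emb R f * M * embT R f) (f i) (f j) = M i j := by
  rw [mul_embT_apply, Finset.sum_eq_single j]
  · rw [if_pos rfl, emb_mul_apply, Finset.sum_eq_single i]
    · rw [if_pos rfl]
    · intro b _ hb
      rw [if_neg fun e => hb (f.injective e).symm]
    · intro h
      exact absurd (Finset.mem_univ _) h
  · intro b _ hb
    rw [if_neg fun e => hb (f.injective e).symm]
  · intro h
    exact absurd (Finset.mem_univ _) h

theorem emb_conj_zero (f : κ ↪ l) (M : Matrix κ κ R) (a b : l)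
    (h : (∀ i, a ≠ f i) ∨ (∀ j, b ≠ f j)) :
    (emb R f * M * embT R f) a b = 0 := by
  rw [mul_embT_apply]
  apply Finset.sum_eq_zero
  intro j _
  rcases h with h | h
  · rw [emb_mul_apply, Finset.sum_eq_zero, ite_self]
    intro i _
    rw [if_neg (h i)]
  · rw [if_neg (h j)]

/-- A criterion: the matrix `M` is the stabilization along `f` of the matrix `N`. -/
theorem eq_pushf (f : κ ↪ l) (M : Matrix l l R) (N : Matrix κ κ R)
    (h1 : ∀ i j, M (f i) (f j) = N i j)
    (h2 : ∀ a b, ((∀ i, a ≠ f i) ∨ (∀ j, b ≠ f j)) → M a b = (1 : Matrix l l R) a b) :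
    M = 1 + emb R f * (N - 1) * embT R f := by
  ext a b
  rw [Matrix.add_apply]
  by_cases h : (∀ i, a ≠ f i) ∨ (∀ j, b ≠ f j)
  · rw [emb_conj_zero f _ a b h, add_zero, h2 a b h]
  · push Not at h
    obtain ⟨⟨i, rfl⟩, ⟨j, rfl⟩⟩ := h
    rw [emb_conj_apply, h1, Matrix.sub_apply, Matrix.one_apply, Matrix.one_apply]
    by_cases hij : i = j
    · rw [if_pos (by rw [hij]), if_pos hij]
      abel
    · rw [if_neg (fun e => hij (f.injective e)), if_neg hij]
      abel

theorem pushf_trans (f : κ ↪ l) (g : l ↪ μ) (u : RG J κ) :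
    pushf g (pushf f u) = pushf (f.trans g) u := by
  apply RG.ext
  rw [pushf_val, pushf_val, pushf_val, add_sub_cancel_left, ← emb_trans, ← embT_trans]
  simp only [Matrix.mul_assoc]

theorem emb_map (f : κ ↪ l) (φ : R →+* R') : (emb R f).map φ = emb R' f := by
  ext a i
  rw [Matrix.map_apply]
  unfold emb
  split_ifs
  · exact map_one φ
  · exact map_zero φ

theorem embT_map (f : κ ↪ l) (φ : R →+* R') : (embT R f).map φ = embT R' f := by
  ext a i
  rw [Matrix.map_apply]
  unfold embT
  split_ifs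
  · exact map_one φ
  · exact map_zero φ

theorem one_map (φ : R →+* R') : (1 : Matrix κ κ R).map φ = 1 :=
  Matrix.map_one φ (map_zero φ) (map_one φ)

theorem sub_map (φ : R →+* R') (M N : Matrix κ l R) :
    (M - N).map φ = M.map φ - N.map φ := by
  ext i j
  exact map_sub φ _ _

theorem add_map (φ : R →+* R') (M N : Matrix κ l R) :
    (M + N).map φ = M.map φ + N.map φ := by
  ext i j
  exact map_add φ _ _

theorem mul_map (φ : R →+* R') (M : Matrix κ l R) (N : Matrix l μ R) :
    (M * N).map φ = M.map φ * N.map φ := Matrix.map_mul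

theorem pushf_map (φ : R →+* R') (hφ : ∀ x ∈ J, φ x ∈ J') (f : κ ↪ l) (u : RG J κ) :
    pushf f (RG.map (J' := J') φ hφ u) = RG.map φ hφ (pushf f u) := by
  apply RG.ext
  rw [RG.map_val, pushf_val, pushf_val, RG.map_val, add_map, mul_map, mul_map, sub_map,
    emb_map, embT_map, one_map, one_map]

end Rel

namespace PD

variable (D : PD) {κ l μ : Type} [Fintype κ] [DecidableEq κ] [Fintype l] [DecidableEq l]
  [Fintype μ] [DecidableEq μ]

/-- The start of a path of matrices. -/
abbrev E0 : RG D.JQ κ →* RG D.J κ := RG.map D.e0 D.J0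

/-- The end of a path of matrices. -/
abbrev E1 : RG D.JQ κ →* RG D.J κ := RG.map D.e1 D.J1

/-- The constant path of matrices. -/
abbrev I : RG D.J κ →* RG D.JQ κ := RG.map D.ι D.Jι

theorem E0_I (u : RG D.J κ) : D.E0 (D.I u) = u := by
  apply RG.ext
  ext i j
  exact D.e0ι _

theorem E1_I (u : RG D.J κ) : D.E1 (D.I u) = u := by
  apply RG.ext
  ext i j
  exact D.e1ι _

/-- The invertible matrices of all sizes, congruent to the identity modulo the ideal. -/
abbrev Gn : Type := Σ k : ℕ, RG D.J (Fin k)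

/-- The relations: `[u v] = [u] + [v]`; the matrix `u` and its stabilizations along injections have
the same class; the end of a path of matrices which starts at the identity has class zero. -/
def relg (Z : Type) [CommRing Z] : Set (D.Gn →₀ Z) :=
  {x | ∃ (k : ℕ) (u v : RG D.J (Fin k)), x = Finsupp.single (⟨k, u * v⟩ : D.Gn) 1 -
      Finsupp.single (⟨k, u⟩ : D.Gn) 1 - Finsupp.single (⟨k, v⟩ : D.Gn) 1} ∪
  {x | ∃ (k m : ℕ) (f : Fin k ↪ Fin m) (u : RG D.J (Fin k)),
      x = Finsupp.single (⟨m, pushf f u⟩ : D.Gn) 1 - Finsupp.single (⟨k, u⟩ : D.Gn) 1} ∪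
  {x | ∃ (k : ℕ) (h : RG D.JQ (Fin k)), D.E0 h = 1 ∧
      x = Finsupp.single (⟨k, D.E1 h⟩ : D.Gn) 1}

/-- The `Z`-module generated by the classes of the matrices of all sizes, with the relations
`relg`. -/
abbrev Ks (Z : Type) [CommRing Z] : Type := (D.Gn →₀ Z) ⧸ Submodule.span Z (D.relg Z)

variable (Z : Type) [CommRing Z]

/-- The class of a matrix with index set `Fin k`. -/
noncomputable def gen (k : ℕ) (u : RG D.J (Fin k)) : D.Ks Z :=
  Submodule.Quotient.mk (Finsupp.single (⟨k, u⟩ : D.Gn) 1)

theorem gen_mul (k : ℕ) (u v : RG D.J (Fin k)) : D.gen Z k (u * v) = D.gen Z k u + D.gen Z k v := by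
  have h : Finsupp.single (⟨k, u * v⟩ : D.Gn) (1 : Z) -
      (Finsupp.single (⟨k, u⟩ : D.Gn) 1 + Finsupp.single (⟨k, v⟩ : D.Gn) 1) ∈
      Submodule.span Z (D.relg Z) := by
    apply Submodule.subset_span
    left; left
    exact ⟨k, u, v, by abel⟩
  exact (Submodule.Quotient.eq _).mpr h

theorem gen_pushf (k m : ℕ) (f : Fin k ↪ Fin m) (u : RG D.J (Fin k)) :
    D.gen Z m (pushf f u) = D.gen Z k u := by
  apply (Submodule.Quotient.eq _).mpr
  apply Submodule.subset_span
  left; right
  exact ⟨k, m, f, u, rfl⟩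

theorem gen_E1 (k : ℕ) (h : RG D.JQ (Fin k)) (h0 : D.E0 h = 1) : D.gen Z k (D.E1 h) = 0 := by
  apply (Submodule.Quotient.mk_eq_zero _).mpr
  apply Submodule.subset_span
  right
  exact ⟨k, h, h0, rfl⟩

/-- Linear maps out of the space of classes. -/
noncomputable def lift {M : Type} [AddCommGroup M] [Module Z M]
    (T : ∀ k, RG D.J (Fin k) → M)
    (h1 : ∀ k (u v : RG D.J (Fin k)), T k (u * v) = T k u + T k v)
    (h2 : ∀ k m (f : Fin k ↪ Fin m) (u : RG D.J (Fin k)), T m (pushf f u) = T k u)
    (h3 : ∀ k (h : RG D.JQ (Fin k)), D.E0 h = 1 → T k (D.E1 h) = 0) : D.Ks Z →ₗ[Z] M :=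
  Submodule.liftQ _ (Finsupp.linearCombination Z (fun x : D.Gn => T x.1 x.2)) (by
    rw [Submodule.span_le]
    intro x hx
    rcases hx with (⟨k, u, v, rfl⟩ | ⟨k, m, f, u, rfl⟩) | ⟨k, h, h0, rfl⟩
    · simp [h1]
    · simp [h2]
    · simp [h3 k h h0])

@[simp] theorem lift_gen {M : Type} [AddCommGroup M] [Module Z M]
    (T : ∀ k, RG D.J (Fin k) → M) (h1) (h2) (h3) (k : ℕ) (u : RG D.J (Fin k)) :
    D.lift Z T h1 h2 h3 (D.gen Z k u) = T k u := by
  change Finsupp.linearCombination Z (fun x : D.Gn => T x.1 x.2) (Finsupp.single _ 1) = _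
  rw [Finsupp.linearCombination_single, one_smul]

/-- Two linear maps agree if they agree on the classes of matrices. -/
theorem hom_ext {M : Type} [AddCommGroup M] [Module Z M] {f g : D.Ks Z →ₗ[Z] M}
    (h : ∀ k u, f (D.gen Z k u) = g (D.gen Z k u)) : f = g := by
  apply Submodule.linearMap_qext
  apply Finsupp.lhom_ext'
  rintro ⟨k, u⟩
  apply LinearMap.ext_ring
  exact h k u

variable {D}

/-- The injection of a finite type into `Fin`. -/
noncomputable def fin (κ : Type) [Fintype κ] : κ ↪ Fin (Fintype.card κ) :=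
  (Fintype.equivFin κ).toEmbedding

/-- The class of a matrix indexed by a finite type. -/
noncomputable def cls (u : RG D.J κ) : D.Ks Z := D.gen Z _ (pushf (fin κ) u)

theorem cls_mul (u v : RG D.J κ) : cls Z (u * v) = cls Z u + cls Z v := by
  unfold cls
  rw [map_mul, gen_mul]

theorem cls_pushf (f : κ ↪ l) (u : RG D.J κ) : cls Z (pushf f u) = cls Z u := by
  unfold cls
  have h : pushf ((Fintype.equivFin κ).symm.toEmbedding.trans (f.trans (fin l)))
      (pushf (fin κ) u) = pushf (fin l) (pushf f u) := by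
    rw [pushf_trans, pushf_trans]
    have e : (fin κ).trans ((Fintype.equivFin κ).symm.toEmbedding.trans (f.trans (fin l))) =
        f.trans (fin l) := by
      ext x
      simp [fin]
    rw [e]
  rw [← h, gen_pushf]

theorem cls_fin (k : ℕ) (u : RG D.J (Fin k)) : cls Z u = D.gen Z k u := by
  unfold cls
  rw [gen_pushf]

theorem cls_one : cls Z (1 : RG D.J κ) = 0 := by
  have h := cls_mul Z (1 : RG D.J κ) 1
  rw [one_mul] at h
  exact left_eq_add.mp h

theorem cls_inv (u : RG D.J κ) : cls Z u⁻¹ = -cls Z u := by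
  rw [eq_neg_iff_add_eq_zero, ← cls_mul, inv_mul_cancel, cls_one]

theorem cls_E1 (h : RG D.JQ κ) (h0 : D.E0 h = 1) : cls Z (D.E1 h) = 0 := by
  unfold cls
  rw [pushf_map]
  apply gen_E1
  rw [← pushf_map, h0, map_one]

/-- The ends of a path of matrices have the same class. -/
theorem cls_homotopy (h : RG D.JQ κ) : cls Z (D.E1 h) = cls Z (D.E0 h) := by
  have h1 := cls_E1 Z (h * (D.I (D.E0 h))⁻¹) (by rw [map_mul, map_inv, E0_I, mul_inv_cancel])
  rw [map_mul, map_inv, E1_I, cls_mul, cls_inv, add_neg_eq_zero] at h1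
  exact h1

end PD

end Pool.Agent.Q171.KV
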