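import Pool.Agent.Q171.KV.Rep

/-!
The transfer along a pair of cocycles for the functor `G ↦ Ks (D[G])`.
-/

namespace Pool.Agent.Q171.KV

open Matrix MulOpposite Pool.Agent.Y483

set_option linter.unusedSectionVars false

namespace PD

variable (Z : Type) [CommRing Z] {D : PD} {G A K : Type} [Group G] [Group K] [DecidableEq A]
  (p : FinPair G A K) {κ l : Type} [Fintype κ] [DecidableEq κ] [Fintype l] [DecidableEq l]

/-- The class of the matrix `W(u)`. -/
noncomputable def trc (u : RG (D.grp G).J κ) : (D.grp K).Ks Z :=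
  tcls Z (B := D.grp K) (WW (R := D.P) (J := D.J) p u)

theorem trc_mul (u v : RG (D.grp G).J κ) : trc Z p (u * v) = trc Z p u + trc Z p v := by
  have h := tcls_conj Z (B := D.grp K) (YY (R := D.P) (J := D.J) p v) (WW (R := D.P) (J := D.J) p u)
    (WW (R := D.P) (J := D.J) p (u * v) * (WW (R := D.P) (J := D.J) p v)⁻¹) (by
      change (YY (R := D.P) (J := D.J) p (u * v))⁻¹ * XX (R := D.P) (J := D.J) p (u * v) *
        ((YY (R := D.P) (J := D.J) p v)⁻¹ * XX (R := D.P) (J := D.J) p v)⁻¹ =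
        (YY (R := D.P) (J := D.J) p v)⁻¹ * ((YY (R := D.P) (J := D.J) p u)⁻¹ *
          XX (R := D.P) (J := D.J) p u) * YY (R := D.P) (J := D.J) p v
      rw [XX_mul, YY_mul]
      group)
  rw [tcls_mul, tcls_inv, ← sub_eq_add_neg, sub_eq_iff_eq_add] at h
  exact h

theorem mapMatrix_push {R S : Type} [Ring R] [Ring S] (f : R →+* S) (j : κ ↪ l)
    (M : Matrix κ κ R) : f.mapMatrix (1 + emb R j * (M - 1) * embT R j) =
      1 + emb S j * (f.mapMatrix M - 1) * embT S j := by
  change (1 + emb R j * (M - 1) * embT R j).map f = 1 + emb S j * (M.map f - 1) * embT S j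
  rw [add_map, mul_map, mul_map, sub_map, emb_map, embT_map, one_map, one_map]

theorem trc_pushf (j : κ ↪ l) (u : RG (D.grp G).J κ) : trc Z p (pushf j u) = trc Z p u := by
  apply tcls_pushf Z j
  have hX : XX (R := D.P) (J := D.J) p (pushf j u) =
      Units.map (pushM (emb _ j) (embT _ j) (embT_mul_emb j)) (XX (R := D.P) (J := D.J) p u) := by
    apply Units.ext
    exact mapMatrix_push _ _ _
  have hY : YY (R := D.P) (J := D.J) p (pushf j u) =
      Units.map (pushM (emb _ j) (embT _ j) (embT_mul_emb j)) (YY (R := D.P) (J := D.J) p u) := by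
    apply Units.ext
    exact mapMatrix_push _ _ _
  change ((YY (R := D.P) (J := D.J) p (pushf j u))⁻¹ *
    XX (R := D.P) (J := D.J) p (pushf j u)).1 = _
  rw [hX, hY, ← map_inv, ← map_mul]
  rfl

theorem rl_rho {R R' : Type} [Ring R] [Ring R'] (φ : R →+* R') (σ : G →* Equiv.Perm A)
    (c : G → A → K) (hc : ∀ g h a, c (g * h) a = c g (σ h a) * c h a)
    (M : Matrix κ κ (MonoidAlgebra R G)) :
    Rl (MonoidAlgebra.mapRingHom K φ) ((rho σ c hc).mapMatrix M)
      ((rho σ c hc).mapMatrix (M.map (MonoidAlgebra.mapRingHom G φ))) :=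
  fun i j a b => ent_rho_map σ c hc φ (M i j) a b

theorem rl_WW {R R' : Type} [Ring R] [Ring R'] {J : TwoSidedIdeal R} {J' : TwoSidedIdeal R'}
    (φ : R →+* R') (hφ : ∀ x ∈ grpJ J G, MonoidAlgebra.mapRingHom G φ x ∈ grpJ J' G)
    (u : RG (grpJ J G) κ) :
    Rl (MonoidAlgebra.mapRingHom K φ) (WW p u).1.1
      (WW p (RG.map (J' := grpJ J' G) (MonoidAlgebra.mapRingHom G φ) hφ u)).1.1 := by
  apply Rl.mul
  · exact rl_rho φ p.σ p.d p.mul_d (u⁻¹).1.1
  · exact rl_rho φ p.σ p.c p.mul_c u.1.1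

theorem trc_E1 (h : RG (D.grp G).JQ κ) (h0 : (D.grp G).E0 h = 1) :
    trc Z p ((D.grp G).E1 h) = 0 := by
  have h1 := tcls_path Z (B := D.grp K) (WW (R := D.Q) (J := D.JQ) p h)
    (WW (R := D.P) (J := D.J) p ((D.grp G).E0 h)) (WW (R := D.P) (J := D.J) p ((D.grp G).E1 h))
    (rl_WW p D.e0 (grpJ_map D.e0 D.J0) h) (rl_WW p D.e1 (grpJ_map D.e1 D.J1) h)
  change tcls Z _ = 0
  rw [h1, h0]
  have h2 : WW (R := D.P) (J := D.J) p (1 : RG (D.grp G).J κ) = 1 := by
    apply Subtype.ext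
    change (Units.map _ 1)⁻¹ * Units.map _ 1 = 1
    rw [map_one, map_one, inv_one, mul_one]
  exact (congrArg (tcls Z) h2).trans (tcls_one Z)

/-- The transfer. -/
noncomputable def trf : (D.grp G).Ks Z →ₗ[Z] (D.grp K).Ks Z :=
  (D.grp G).lift Z (fun _ u => trc Z p u) (fun _ u v => trc_mul Z p u v)
    (fun _ _ j u => trc_pushf Z p j u) (fun _ h h0 => trc_E1 Z p h h0)

theorem trf_cls (u : RG (D.grp G).J κ) : trf Z p (cls Z u) = trc Z p u := by
  unfold trf cls
  rw [lift_gen, trc_pushf]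

theorem trc_formula {G₀ : Type} [Group G₀] (j : G₀ →* G) (Y : Finset A) (lc ld : A → (G₀ →* K))
    (h1 : ∀ a ∈ Y, ∀ g, p.σ (j g) a = a ∧ lc a g = p.c (j g) a ∧ ld a g = p.d (j g) a)
    (h2 : ∀ a ∉ Y, ∀ g, p.c (j g) a = p.d (j g) a) (u : RG (D.grp G₀).J κ) :
    trc Z p (gm j u) = ∑ a ∈ Y, (cls Z (gm (lc a) u) - cls Z (gm (ld a) u)) := by
  have hX : ∀ i k, ∀ b ∈ Y, ∀ a, ent ((XX (R := D.P) (J := D.J) p (gm j u)).1 i k) a b =
      if a = b then (gm (lc b) u).1.1 i k else 0 := by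
    intro i k b hb a
    exact rho_map_fix p.σ p.c p.mul_c j (lc b) b (fun g => ⟨(h1 b hb g).1, (h1 b hb g).2.1⟩)
      (u.1.1 i k) a
  have hY : ∀ i k, ∀ b ∈ Y, ∀ a, ent (((YY (R := D.P) (J := D.J) p (gm j u))⁻¹).1 i k) a b =
      if a = b then ((gm (ld b) u)⁻¹).1.1 i k else 0 := by
    intro i k b hb a
    exact rho_map_fix p.σ p.d p.mul_d j (ld b) b (fun g => ⟨(h1 b hb g).1, (h1 b hb g).2.2⟩)
      ((u⁻¹).1.1 i k) a
  have hXY : ∀ i k, ∀ b ∉ Y, ∀ a, ent ((XX (R := D.P) (J := D.J) p (gm j u)).1 i k) a b =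
      ent ((YY (R := D.P) (J := D.J) p (gm j u)).1 i k) a b := by
    intro i k b hb a
    exact rho_map_eq p.σ p.c p.mul_c j p.d p.mul_d b (h2 b hb) (u.1.1 i k) a
  have hW : ∀ i k, ∀ b ∈ Y, ∀ a, ent ((WW (R := D.P) (J := D.J) p (gm j u)).1.1 i k) a b =
      if a = b then ((gm (ld b) u)⁻¹ * gm (lc b) u).1.1 i k else 0 := by
    intro i k b hb a
    change ent ((((YY (R := D.P) (J := D.J) p (gm j u))⁻¹).1 *
      (XX (R := D.P) (J := D.J) p (gm j u)).1) i k) a b = _
    rw [Matrix.mul_apply, ent_sum]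
    have e : ∀ m, ent (((YY (R := D.P) (J := D.J) p (gm j u))⁻¹).1 i m *
        (XX (R := D.P) (J := D.J) p (gm j u)).1 m k) a b =
        if a = b then ((gm (ld b) u)⁻¹).1.1 i m * (gm (lc b) u).1.1 m k else 0 := by
      intro m
      rw [ent_mul _ _ _ _ {b}, Finset.sum_singleton, hX m k b hb, if_pos rfl, hY i m b hb]
      · split_ifs
        · rfl
        · exact zero_mul _
      · intro c hc
        right
        rw [hX m k b hb, if_neg (by simpa using hc)]
    rw [Finset.sum_congr rfl fun m _ => e m]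
    by_cases hab : a = b
    · rw [if_pos hab, Finset.sum_congr rfl fun m _ => if_pos hab]
      rfl
    · rw [if_neg hab, Finset.sum_congr rfl fun m _ => if_neg hab]
      exact Finset.sum_const_zero
  have hS : Supp Y ((WW (R := D.P) (J := D.J) p (gm j u)).1.1 - 1) := by
    intro i k a b hab
    by_cases hb : b ∈ Y
    · have ha : a ≠ b := by
        rintro rfl
        exact hab.elim (fun h => h hb) (fun h => h hb)
      rw [Matrix.sub_apply, ent_sub, hW i k b hb a, if_neg ha, Matrix.one_apply]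
      split_ifs
      · rw [ent_one, Matrix.one_apply, if_neg ha, sub_zero]
      · rw [ent_zero, sub_zero]
    · have e : (WW (R := D.P) (J := D.J) p (gm j u)).1.1 - 1 =
          ((YY (R := D.P) (J := D.J) p (gm j u))⁻¹).1 *
            ((XX (R := D.P) (J := D.J) p (gm j u)).1 -
              (YY (R := D.P) (J := D.J) p (gm j u)).1) := by
        rw [mul_sub, Units.inv_mul]
        rfl
      rw [e, Matrix.mul_apply, ent_sum]
      apply Finset.sum_eq_zero
      intro m _
      apply ent_mul_zero_right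
      intro c
      rw [Matrix.sub_apply, ent_sub, hXY m k b hb, sub_self]
  change tcls Z _ = _
  rw [tcls_eq Z (B := D.grp K) _ Y hS]
  have hr : res (J := (D.grp K).J) (WW (R := D.P) (J := D.J) p (gm j u)).1 Y hS
      (WW (R := D.P) (J := D.J) p (gm j u)).2.2 =
      bd (B := D.grp K) Y (fun b => (gm (ld b) u)⁻¹ * gm (lc b) u) := by
    apply RG.ext
    ext1 x y
    rw [bd_val, blockDiagonal_apply]
    change ent _ _ _ = _
    rw [hW x.1 y.1 y.2 y.2.2]
    by_cases h : x.2 = y.2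
    · rw [if_pos h, if_pos (congrArg Subtype.val h), h]
    · rw [if_neg h, if_neg fun e => h (Subtype.ext e)]
  rw [hr, cls_bd]
  apply Finset.sum_congr rfl
  intro a _
  rw [cls_mul, cls_inv, neg_add_eq_sub]

end PD


/-- The transfer of the image of a class under a homomorphism which fixes the points where the
cocycles are different. -/
theorem trf_kmap {D : PD} (Z : Type) [CommRing Z] {G A K : Type} [Group G] [Group K]
    [DecidableEq A] (p : FinPair G A K) {G₀ : Type} [Group G₀] (j : G₀ →* G) (Y : Finset A)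
    (lc ld : A → (G₀ →* K))
    (h1 : ∀ a ∈ Y, ∀ g, p.σ (j g) a = a ∧ lc a g = p.c (j g) a ∧ ld a g = p.d (j g) a)
    (h2 : ∀ a ∉ Y, ∀ g, p.c (j g) a = p.d (j g) a) (x : (D.grp G₀).Ks Z) :
    PD.trf (D := D) Z p (D.kmap Z j x) =
      ∑ a ∈ Y, (D.kmap Z (lc a) x - D.kmap Z (ld a) x) := by
  have key : (PD.trf (D := D) Z p) ∘ₗ (D.kmap Z j) =
      ∑ a ∈ Y, (D.kmap Z (lc a) - D.kmap Z (ld a)) := by
    apply PD.hom_ext
    intro k u
    rw [LinearMap.comp_apply, PD.kmap_gen, PD.trf_cls, PD.trc_formula Z p j Y lc ld h1 h2,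
      LinearMap.sum_apply]
    apply Finset.sum_congr rfl
    intro a _
    rw [LinearMap.sub_apply, PD.kmap_gen, PD.kmap_gen]
  have h := LinearMap.congr_fun key x
  rw [LinearMap.comp_apply, LinearMap.sum_apply] at h
  exact h

end Pool.Agent.Q171.KV
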