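import Pool.Agent.Q171.KV.Lps
import Pool.Agent.Q171.KV.Tr

/-!
The polynomials over a group ring are the elements of the group ring over the polynomials; the
transfers for `G ↦ ℚ ⊗ KV_{n+1}(S[G])`.
-/

namespace Pool.Agent.Q171.KV

open Matrix Polynomial Pool.Agent.Y483

set_option linter.unusedSectionVars false

section Swap

variable {R R' : Type} [Ring R] [Ring R'] {G H : Type} [Group G] [Group H]

theorem swp_comm (p : R[X]) (g : G) :
    Commute (mapRingHom (MonoidAlgebra.singleOneRingHom (R := R) (M := G)) p)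
      (((C : MonoidAlgebra R G →+* (MonoidAlgebra R G)[X]).toMonoidHom.comp
        (MonoidAlgebra.of R G)) g) := by
  change Commute _ (C (MonoidAlgebra.single g 1))
  refine (commute_iff_eq _ _).mpr ?_
  ext1 n
  rw [coeff_mul_C, coeff_C_mul, coe_mapRingHom, coeff_map]
  change MonoidAlgebra.single 1 _ * MonoidAlgebra.single g 1 =
    MonoidAlgebra.single g 1 * MonoidAlgebra.single 1 _
  rw [MonoidAlgebra.single_mul_single, MonoidAlgebra.single_mul_single, one_mul, one_mul,
    mul_one, mul_one]

/-- The homomorphism `R[X][G] → R[G][X]`. -/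
noncomputable def swp (R G : Type) [Ring R] [Group G] :
    MonoidAlgebra R[X] G →+* (MonoidAlgebra R G)[X] :=
  MonoidAlgebra.liftNCRingHom
    (mapRingHom (MonoidAlgebra.singleOneRingHom (R := R) (M := G)))
    ((C : MonoidAlgebra R G →+* (MonoidAlgebra R G)[X]).toMonoidHom.comp (MonoidAlgebra.of R G))
    swp_comm

theorem swp_single_coeff (g : G) (p : R[X]) (n : ℕ) :
    (swp R G (MonoidAlgebra.single g p)).coeff n = MonoidAlgebra.single g (p.coeff n) := by
  unfold swp
  rw [MonoidAlgebra.liftNCRingHom_single]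
  change (mapRingHom MonoidAlgebra.singleOneRingHom p * C (MonoidAlgebra.single g 1)).coeff n = _
  rw [coeff_mul_C, coe_mapRingHom, coeff_map]
  change MonoidAlgebra.single 1 _ * MonoidAlgebra.single g 1 = _
  rw [MonoidAlgebra.single_mul_single, one_mul, mul_one]

theorem swp_coeff (x : MonoidAlgebra R[X] G) (n : ℕ) (g : G) :
    ((swp R G x).coeff n).coeff g = (x.coeff g).coeff n := by
  classical
  induction x using MonoidAlgebra.induction_linear with
  | zero => rw [map_zero]; rfl
  | add x y hx hy =>
    rw [map_add, coeff_add, MonoidAlgebra.coeff_add, Finsupp.add_apply, hx, hy,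
      MonoidAlgebra.coeff_add, Finsupp.add_apply, coeff_add]
  | single h p =>
    rw [swp_single_coeff, MonoidAlgebra.coeff_single, MonoidAlgebra.coeff_single,
      Finsupp.single_apply, Finsupp.single_apply]
    split_ifs
    · rfl
    · rfl

theorem swp_injective : Function.Injective (swp R G) := by
  intro x y h
  ext g n
  rw [← swp_coeff, ← swp_coeff, h]

theorem swp_surjective : Function.Surjective (swp R G) := by
  intro q
  induction q using Polynomial.induction_on' with
  | add p q hp hq =>
    obtain ⟨x, rfl⟩ := hp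
    obtain ⟨y, rfl⟩ := hq
    exact ⟨x + y, map_add _ _ _⟩
  | monomial n a =>
    induction a using MonoidAlgebra.induction_linear with
    | zero => exact ⟨0, by rw [map_zero, map_zero]⟩
    | add x y hx hy =>
      obtain ⟨x', hx'⟩ := hx
      obtain ⟨y', hy'⟩ := hy
      exact ⟨x' + y', by rw [map_add, hx', hy', ← map_add]⟩
    | single g r =>
      refine ⟨MonoidAlgebra.single g (monomial n r), ?_⟩
      ext1 m
      rw [swp_single_coeff, coeff_monomial, coeff_monomial]
      split_ifs
      · rfl
      · exact MonoidAlgebra.single_zero _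

/-- The isomorphism `R[X][G] ≃ R[G][X]`. -/
noncomputable def swE (R G : Type) [Ring R] [Group G] :
    MonoidAlgebra R[X] G ≃+* (MonoidAlgebra R G)[X] :=
  RingEquiv.ofBijective (swp R G) ⟨swp_injective, swp_surjective⟩

/-- The homomorphism `R[G][X] → R[X][G]`. -/
noncomputable def swI (R G : Type) [Ring R] [Group G] :
    (MonoidAlgebra R G)[X] →+* MonoidAlgebra R[X] G := ((swE R G).symm : _ →+* _)

theorem swp_swI (q : (MonoidAlgebra R G)[X]) : swp R G (swI R G q) = q :=
  (swE R G).apply_symm_apply q

theorem swI_swp (x : MonoidAlgebra R[X] G) : swI R G (swp R G x) = x :=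
  (swE R G).symm_apply_apply x

theorem swI_coeff (q : (MonoidAlgebra R G)[X]) (n : ℕ) (g : G) :
    ((swI R G q).coeff g).coeff n = (q.coeff n).coeff g := by
  rw [← swp_coeff, swp_swI]

theorem swp_map (f : R →+* R') (x : MonoidAlgebra R[X] G) :
    mapRingHom (MonoidAlgebra.mapRingHom G f) (swp R G x) =
      swp R' G (MonoidAlgebra.mapRingHom G (mapRingHom f) x) := by
  ext n g
  rw [coe_mapRingHom, coeff_map, MonoidAlgebra.coeff_mapRingHom, swp_coeff, swp_coeff,
    MonoidAlgebra.coeff_mapRingHom, coe_mapRingHom, coeff_map]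

theorem swI_map (f : R →+* R') (x : (MonoidAlgebra R G)[X]) :
    MonoidAlgebra.mapRingHom G (mapRingHom f) (swI R G x) =
      swI R' G (mapRingHom (MonoidAlgebra.mapRingHom G f) x) := by
  apply swp_injective
  rw [← swp_map, swp_swI, swp_swI]

theorem swp_domain (f : G →* H) (x : MonoidAlgebra R[X] G) :
    swp R H (MonoidAlgebra.mapDomainRingHom R[X] f x) =
      mapRingHom (MonoidAlgebra.mapDomainRingHom R f) (swp R G x) := by
  induction x using MonoidAlgebra.induction_linear with
  | zero => rw [map_zero, map_zero, map_zero, map_zero]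
  | add x y hx hy => rw [map_add, map_add, hx, hy, map_add, map_add]
  | single g p =>
    ext1 n
    rw [MonoidAlgebra.mapDomainRingHom_apply, MonoidAlgebra.mapDomain_single, swp_single_coeff,
      coe_mapRingHom, coeff_map, swp_single_coeff, MonoidAlgebra.mapDomainRingHom_apply,
      MonoidAlgebra.mapDomain_single]

theorem swI_domain (f : G →* H) (x : (MonoidAlgebra R G)[X]) :
    MonoidAlgebra.mapDomainRingHom R[X] f (swI R G x) =
      swI R H (mapRingHom (MonoidAlgebra.mapDomainRingHom R f) x) := by
  apply swp_injective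
  rw [swp_domain, swp_swI, swp_swI]

theorem pe0_swp (x : MonoidAlgebra R[X] G) :
    pe0 (swp R G x) = MonoidAlgebra.mapRingHom G pe0 x := by
  have h : pe0.comp (swp R G) = MonoidAlgebra.mapRingHom G pe0 := by
    apply MonoidAlgebra.ringHom_ext
    · intro p
      have e : swp R G (MonoidAlgebra.single 1 p) =
          mapRingHom (MonoidAlgebra.singleOneRingHom (R := R) (M := G)) p := by
        ext1 n
        rw [swp_single_coeff, coe_mapRingHom, coeff_map]
        rfl
      rw [RingHom.comp_apply, e, pe0_map, MonoidAlgebra.mapRingHom_single]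
      rfl
    · intro g
      have e : swp R G (MonoidAlgebra.single g 1) = C (MonoidAlgebra.single g 1) := by
        ext1 n
        rw [swp_single_coeff, coeff_one, coeff_C]
        split_ifs
        · rfl
        · exact MonoidAlgebra.single_zero _
      rw [RingHom.comp_apply, e, pe0_C, MonoidAlgebra.mapRingHom_single, map_one]
  exact RingHom.congr_fun h x

theorem pe1_swp (x : MonoidAlgebra R[X] G) :
    pe1 (swp R G x) = MonoidAlgebra.mapRingHom G pe1 x := by
  have h : pe1.comp (swp R G) = MonoidAlgebra.mapRingHom G pe1 := by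
    apply MonoidAlgebra.ringHom_ext
    · intro p
      have e : swp R G (MonoidAlgebra.single 1 p) =
          mapRingHom (MonoidAlgebra.singleOneRingHom (R := R) (M := G)) p := by
        ext1 n
        rw [swp_single_coeff, coe_mapRingHom, coeff_map]
        rfl
      rw [RingHom.comp_apply, e, pe1_map, MonoidAlgebra.mapRingHom_single]
      rfl
    · intro g
      have e : swp R G (MonoidAlgebra.single g 1) = C (MonoidAlgebra.single g 1) := by
        ext1 n
        rw [swp_single_coeff, coeff_one, coeff_C]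
        split_ifs
        · rfl
        · exact MonoidAlgebra.single_zero _
      rw [RingHom.comp_apply, e, pe1_C, MonoidAlgebra.mapRingHom_single, map_one]
  exact RingHom.congr_fun h x

theorem swp_mem {J : TwoSidedIdeal R} (x : MonoidAlgebra R[X] G) (hx : x ∈ grpJ (loopJ J) G) :
    swp R G x ∈ loopJ (grpJ J G) := by
  rw [mem_grpJ] at hx
  rw [mem_loopJ]
  refine ⟨fun n => ?_, ?_, ?_⟩
  · rw [mem_grpJ]
    intro g
    rw [swp_coeff]
    exact (mem_loopJ.mp (hx g)).1 n
  · rw [pe0_swp]
    ext g
    rw [MonoidAlgebra.coeff_mapRingHom]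
    exact (mem_loopJ.mp (hx g)).2.1
  · rw [pe1_swp]
    ext g
    rw [MonoidAlgebra.coeff_mapRingHom]
    exact (mem_loopJ.mp (hx g)).2.2

theorem swI_mem {J : TwoSidedIdeal R} (x : (MonoidAlgebra R G)[X]) (hx : x ∈ loopJ (grpJ J G)) :
    swI R G x ∈ grpJ (loopJ J) G := by
  rw [mem_loopJ] at hx
  rw [mem_grpJ]
  intro g
  rw [mem_loopJ]
  refine ⟨fun n => ?_, ?_, ?_⟩
  · rw [swI_coeff]
    exact mem_grpJ.mp (hx.1 n) g
  · rw [← MonoidAlgebra.coeff_mapRingHom, ← pe0_swp, swp_swI, hx.2.1]
    rfl
  · rw [← MonoidAlgebra.coeff_mapRingHom, ← pe1_swp, swp_swI, hx.2.2]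
    rfl

end Swap

namespace PD

/-- The homomorphism of the data induced by a homomorphism of groups. -/
noncomputable def Hom.grp (D : PD) {G H : Type} [Group G] [Group H] (f : G →* H) :
    Hom (D.grp G) (D.grp H) where
  fP := MonoidAlgebra.mapDomainRingHom D.P f
  fQ := MonoidAlgebra.mapDomainRingHom D.Q f
  h0 q := RingHom.congr_fun (MonoidAlgebra.mapRingHom_comp_mapDomainRingHom D.e0 f) q
  h1 q := RingHom.congr_fun (MonoidAlgebra.mapRingHom_comp_mapDomainRingHom D.e1 f) q
  hJ := grpJ_domain f
  hJQ := grpJ_domain f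

theorem Hom.grp_ks (Z : Type) [CommRing Z] (D : PD) {G H : Type} [Group G] [Group H]
    (f : G →* H) : (Hom.grp D f).ks Z = D.kmap Z f := by
  apply hom_ext
  intro k u
  rw [Hom.ks_gen, kmap_gen]
  rfl

theorem Hom.comp_assoc {A B D E : PD} (h : Hom D E) (g : Hom B D) (f : Hom A B) :
    (h.comp g).comp f = h.comp (g.comp f) := rfl

theorem Hom.id_comp {A B : PD} (f : Hom A B) : (Hom.id B).comp f = f := rfl

/-- The homomorphism from the group ring of the loops to the loops of the group ring. -/
noncomputable def swU (D : PD) (G : Type) [Group G] : Hom ((loop D).grp G) (loop (D.grp G)) where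
  fP := swp D.P G
  fQ := swp D.Q G
  h0 := swp_map _
  h1 := swp_map _
  hJ := swp_mem
  hJQ := swp_mem

/-- The homomorphism in the other direction. -/
noncomputable def swL (D : PD) (G : Type) [Group G] : Hom (loop (D.grp G)) ((loop D).grp G) where
  fP := swI D.P G
  fQ := swI D.Q G
  h0 := swI_map _
  h1 := swI_map _
  hJ := swI_mem
  hJQ := swI_mem

theorem swU_swL (D : PD) (G : Type) [Group G] : (swU D G).comp (swL D G) = Hom.id _ :=
  Hom.ext' (fun p => swp_swI p) (fun q => swp_swI q)

theorem swU_nat (D : PD) {G H : Type} [Group G] [Group H] (f : G →* H) :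
    (swU D H).comp (Hom.grp (loop D) f) = (Hom.grp D f).loop.comp (swU D G) :=
  Hom.ext' (fun p => swp_domain f p) (fun q => swp_domain f q)

theorem swL_nat (D : PD) {G H : Type} [Group G] [Group H] (f : G →* H) :
    (swL D H).comp (Hom.grp D f).loop = (Hom.grp (loop D) f).comp (swL D G) :=
  Hom.ext' (fun p => (swI_domain f p).symm) (fun q => (swI_domain f q).symm)

/-- The case of polynomial rings. -/
noncomputable def swU0 (S G : Type) [Ring S] [Group G] :
    Hom ((base S).grp G) (base (MonoidAlgebra S G)) where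
  fP := RingHom.id _
  fQ := swp S G
  h0 := pe0_swp
  h1 := pe1_swp
  hJ _ _ := trivial
  hJQ _ _ := trivial

/-- The case of polynomial rings, in the other direction. -/
noncomputable def swL0 (S G : Type) [Ring S] [Group G] :
    Hom (base (MonoidAlgebra S G)) ((base S).grp G) where
  fP := RingHom.id _
  fQ := swI S G
  h0 q := by
    rw [← pe0_swp, swp_swI]
    rfl
  h1 q := by
    rw [← pe1_swp, swp_swI]
    rfl
  hJ _ _ := mem_grpJ.mpr fun _ => trivial
  hJQ _ _ := mem_grpJ.mpr fun _ => trivial

/-- The homomorphism from the group ring of the data of the loops to the data of the loops of the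
group ring. -/
noncomputable def thU (S G : Type) [Ring S] [Group G] :
    ∀ n, Hom ((loops S n).grp G) (loops (MonoidAlgebra S G) n)
  | 0 => swU0 S G
  | n + 1 => (thU S G n).loop.comp (swU (loops S n) G)

/-- The homomorphism in the other direction. -/
noncomputable def thI (S G : Type) [Ring S] [Group G] :
    ∀ n, Hom (loops (MonoidAlgebra S G) n) ((loops S n).grp G)
  | 0 => swL0 S G
  | n + 1 => (swL (loops S n) G).comp (thI S G n).loop

theorem thU_thI (S G : Type) [Ring S] [Group G] (n : ℕ) :
    (thU S G n).comp (thI S G n) = Hom.id _ := by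
  induction n with
  | zero => exact Hom.ext' (fun _ => rfl) (fun q => swp_swI q)
  | succ n ih =>
    change ((thU S G n).loop.comp (swU (loops S n) G)).comp
      ((swL (loops S n) G).comp (thI S G n).loop) = _
    rw [Hom.comp_assoc, ← Hom.comp_assoc (swU (loops S n) G), swU_swL, Hom.id_comp,
      ← Hom.loop_comp, ih, Hom.loop_id]
    rfl

variable {G H : Type} [Group G] [Group H]

theorem thU_nat (S : Type) [Ring S] (f : G →* H) (n : ℕ) :
    (thU S H n).comp (Hom.grp (loops S n) f) =
      (Hom.loops (MonoidAlgebra.mapDomainRingHom S f) n).comp (thU S G n) := by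
  induction n with
  | zero => exact Hom.ext' (fun _ => rfl) (fun q => swp_domain f q)
  | succ n ih =>
    change ((thU S H n).loop.comp (swU (loops S n) H)).comp (Hom.grp (loop (loops S n)) f) =
      (Hom.loops (MonoidAlgebra.mapDomainRingHom S f) n).loop.comp
        ((thU S G n).loop.comp (swU (loops S n) G))
    rw [Hom.comp_assoc, swU_nat, ← Hom.comp_assoc, ← Hom.loop_comp, ih, Hom.loop_comp,
      Hom.comp_assoc]

theorem thI_nat (S : Type) [Ring S] (f : G →* H) (n : ℕ) :
    (thI S H n).comp (Hom.loops (MonoidAlgebra.mapDomainRingHom S f) n) =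
      (Hom.grp (loops S n) f).comp (thI S G n) := by
  induction n with
  | zero => exact Hom.ext' (fun _ => rfl) (fun q => (swI_domain f q).symm)
  | succ n ih =>
    change ((swL (loops S n) H).comp (thI S H n).loop).comp
        (Hom.loops (MonoidAlgebra.mapDomainRingHom S f) n).loop =
      (Hom.grp (loop (loops S n)) f).comp ((swL (loops S n) G).comp (thI S G n).loop)
    rw [Hom.comp_assoc, ← Hom.loop_comp, ih, Hom.loop_comp, ← Hom.comp_assoc, swL_nat,
      Hom.comp_assoc]

end PD

open PD in
/-- The transfer along a pair of cocycles for `G ↦ KV_{n+1}(S[G])`. -/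
theorem kvs_transfer (Z : Type) [CommRing Z] (S : Type) [Ring S] (n : ℕ) {G A K : Type} [Group G]
    [Group K] (p : FinPair G A K) :
    ∃ Φ : KVs Z n (MonoidAlgebra S G) →ₗ[Z] KVs Z n (MonoidAlgebra S K),
      ∀ (G₀ : Type) [Group G₀] (j : G₀ →* G) (Y : Finset A) (lc ld : A → (G₀ →* K)),
        (∀ a ∈ Y, ∀ g, p.σ (j g) a = a ∧ lc a g = p.c (j g) a ∧ ld a g = p.d (j g) a) →
        (∀ a ∉ Y, ∀ g, p.c (j g) a = p.d (j g) a) → ∀ x : KVs Z n (MonoidAlgebra S G₀),
          Φ (KVs.map Z n (MonoidAlgebra.mapDomainRingHom S j) x) =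
            ∑ a ∈ Y, (KVs.map Z n (MonoidAlgebra.mapDomainRingHom S (lc a)) x -
              KVs.map Z n (MonoidAlgebra.mapDomainRingHom S (ld a)) x) := by
  classical
  have hI : ∀ (G H : Type) [Group G] [Group H] (f : G →* H) (x : KVs Z n (MonoidAlgebra S G)),
      (thI S H n).ks Z (KVs.map Z n (MonoidAlgebra.mapDomainRingHom S f) x) =
        (PD.loops S n).kmap Z f ((thI S G n).ks Z x) := by
    intro G H _ _ f x
    have h := congrArg (PD.Hom.ks Z) (PD.thI_nat S f n)
    rw [PD.Hom.ks_comp, PD.Hom.ks_comp, PD.Hom.grp_ks] at h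
    exact LinearMap.congr_fun h x
  have hU : ∀ (G H : Type) [Group G] [Group H] (f : G →* H) (x : ((PD.loops S n).grp G).Ks Z),
      (thU S H n).ks Z ((PD.loops S n).kmap Z f x) =
        KVs.map Z n (MonoidAlgebra.mapDomainRingHom S f) ((thU S G n).ks Z x) := by
    intro G H _ _ f x
    have h := congrArg (PD.Hom.ks Z) (PD.thU_nat S f n)
    rw [PD.Hom.ks_comp, PD.Hom.ks_comp, PD.Hom.grp_ks] at h
    exact LinearMap.congr_fun h x
  have hUI : ∀ (G : Type) [Group G] (x : KVs Z n (MonoidAlgebra S G)),
      (thU S G n).ks Z ((thI S G n).ks Z x) = x := by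
    intro G _ x
    have h := congrArg (PD.Hom.ks Z) (PD.thU_thI S G n)
    rw [PD.Hom.ks_comp, PD.Hom.ks_id] at h
    exact LinearMap.congr_fun h x
  refine ⟨(thU S K n).ks Z ∘ₗ PD.trf (D := PD.loops S n) Z p ∘ₗ (thI S G n).ks Z, ?_⟩
  intro G₀ _ j Y lc ld h1 h2 x
  rw [LinearMap.comp_apply, LinearMap.comp_apply, hI, trf_kmap Z p j Y lc ld h1 h2, map_sum]
  apply Finset.sum_congr rfl
  intro a _
  rw [map_sub, hU, hU, hUI]

end Pool.Agent.Q171.KV
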